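import Mathlib
import Pool.Agent.Work.MP_787500_nt.HC.Defs

/-!
# Definitions of the block T (fixed file)

Congruent numbers `a = 7 (mod 8)` by complex multiplication: the trace over the class group of `Q(sqrt (-a))`
of points of `y ^ 2 = x ^ 3 + 4 x`, and a descent by a cyclic isogeny of degree 4.
-/

set_option autoImplicit false

namespace Pool.Agent.Work.MP_8efaaa_nt.T

open IsDedekindDomain NumberField Pool.Agent.Work.MP_787500_nt.HC
open scoped nonZeroDivisors

universe u

/-- `K` is generated by a square root `s` of `-a`, `a` squarefree and `7` modulo `8` -/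
structure Base (K : Type u) [Field K] [NumberField K] (a : ℕ) (s : K) : Prop where
  dim : Module.finrank ℚ K = 2
  sq : s ^ 2 = -(a : K)
  sf : Squarefree a
  mod : a % 8 = 7

/-- The relations of the functions `W`, `W'` on the class group (`p` is the inverse of the class of the
place `v`). -/
structure WRel {A F : Type*} [Field F] [CommGroup A] (p : A) (W W' : A → F) : Prop where
  four : ∀ a, W a ^ 4 + W' a ^ 4 = 1
  rec1 : ∀ a, W (p * a) ^ 2 * (1 + W a ^ 2) = 2 * W a
  rec2 : ∀ a, W' a ^ 2 * (1 + W' (p * a) ^ 2) = 2 * W' (p * a)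
  ne : ∀ a, W a ≠ 0
  ne' : ∀ a, W' a ≠ 0

/-- The functions `W`, `W'` on the class group of `K` with values in the algebraic closure. -/
structure WCtx (K : Type u) [Field K] [NumberField K] (v : HeightOneSpectrum (𝓞 K))
    (W W' : ClassGroup (𝓞 K) → AlgebraicClosure K) : Prop where
  rel : WRel (cl (pr v)⁻¹) W W'
  prod : ∀ (m : ℕ) (β : Kˣ), prin β = pr v ^ m → ∀ c : ClassGroup (𝓞 K),
    algebraMap K (AlgebraicClosure K) (β : K) ^ 2 =
      (∏ k ∈ Finset.range m, (1 + W (cl (pr v)⁻¹ ^ k * c) ^ 2)) ^ 2
  act : Act K (AlgebraicClosure K) W W'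

end Pool.Agent.Work.MP_8efaaa_nt.T
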