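import Mathlib
import Pool.Agent.Work.MP_787500_nt.H10_Quad
import Pool.Agent.Work.MP_8efaaa_nt.T.Defs

/-!
# T/Quad: the ring of integers for squarefree `q = 7 (mod 8)` (copies of the theorems of `H10_Quad`)
-/

set_option autoImplicit false

namespace Pool.Agent.Work.MP_8efaaa_nt.T

open WithZero IsDedekindDomain NumberField
open Pool.Agent.Work.MP_787500_nt Pool.Agent.Work.MP_787500_nt.Quad

namespace Qd

variable {K : Type*} [Field K] [NumberField K] {q : ℕ} {s : K}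

theorem exists_int_coords (hK : Module.finrank ℚ K = 2) (hs : s ^ 2 = -(q : K)) (hq : Squarefree q)
    (hq4 : q % 4 = 3) {x : K} (hx : IsIntegral ℤ x) :
    ∃ a b : ℤ, 2 * x = (a : K) + b * s ∧ (2 : ℤ) ∣ a - b := by
  obtain ⟨a, b, rfl⟩ := exists_coords hK hs (Nat.pos_of_ne_zero hq.ne_zero) x
  have φ : K →+* ℂ := Classical.arbitrary _
  obtain ⟨h1, h2⟩ := emb_re_im hs (Nat.pos_of_ne_zero hq.ne_zero) φ
  set x := (a : K) + b * s with hxdef
  have i1 : IsIntegral ℤ (φ x) := map_isIntegral_int φ hx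
  have i2 : IsIntegral ℤ ((starRingEnd ℂ) (φ x)) := map_isIntegral_int (starRingEnd ℂ) i1
  have hφx : φ x = ((a : ℝ) + b * (φ s).re : ℝ) + ((b : ℝ) * (φ s).im : ℝ) * Complex.I := by
    rw [hxdef, map_add, map_mul, map_ratCast, map_ratCast]
    apply Complex.ext <;> simp
  have i3 : IsIntegral ℤ ((2 * a : ℚ) : ℂ) := by
    have := i1.add i2
    have e : φ x + (starRingEnd ℂ) (φ x) = ((2 * a : ℚ) : ℂ) := by
      rw [Complex.add_conj, hφx, h1]
      simp
    rwa [e] at this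
  have i4 : IsIntegral ℤ ((a ^ 2 + q * b ^ 2 : ℚ) : ℂ) := by
    have := i1.mul i2
    have e : φ x * (starRingEnd ℂ) (φ x) = ((a ^ 2 + q * b ^ 2 : ℚ) : ℂ) := by
      rw [Complex.mul_conj, hxdef, normSq_emb hs (Nat.pos_of_ne_zero hq.ne_zero)]
      push_cast
      ring
    rwa [e] at this
  obtain ⟨t, ht⟩ := int_of_isIntegral_rat (q := 2 * a) (by
    have := (isIntegral_algebraMap_iff (R := ℤ) (A := ℚ) (B := ℂ) (x := 2 * a)
      (algebraMap ℚ ℂ).injective).1 (by simpa using i3)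
    exact this)
  obtain ⟨n, hn⟩ := int_of_isIntegral_rat (q := a ^ 2 + q * b ^ 2) (by
    have := (isIntegral_algebraMap_iff (R := ℤ) (A := ℚ) (B := ℂ)
      (x := a ^ 2 + q * b ^ 2) (algebraMap ℚ ℂ).injective).1 (by simpa using i4)
    exact this)
  -- q (2 b)^2 is an integer
  have h7 : (q : ℚ) * (2 * b) ^ 2 = ((4 * n - t ^ 2 : ℤ) : ℚ) := by
    push_cast
    rw [ht, hn]; ring
  have hbi : IsIntegral ℤ ((q : ℚ) * (2 * b)) := by
    have h8 : IsIntegral ℤ (((q : ℚ) * (2 * b)) ^ 2) := by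
      rw [show ((q : ℚ) * (2 * b)) ^ 2 = ((q * (4 * n - t ^ 2) : ℤ) : ℚ) by
        push_cast; push_cast at h7; rw [← h7]; ring]
      exact isIntegral_algebraMap (R := ℤ) (x := q * (4 * n - t ^ 2))
    exact IsIntegral.of_pow (by norm_num) h8
  obtain ⟨c, hc⟩ := int_of_isIntegral_rat hbi
  have h9 : c ^ 2 = q * (4 * n - t ^ 2) := by
    have : (c : ℚ) ^ 2 = q * ((4 * n - t ^ 2 : ℤ) : ℚ) := by rw [hc, ← h7]; ring
    exact_mod_cast this
  have h10 : (q : ℤ) ∣ c := by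
    have h11 : (q : ℤ) ∣ c ^ 2 := ⟨_, h9⟩
    exact (Squarefree.dvd_pow_iff_dvd (Int.squarefree_natCast.2 hq) two_ne_zero).1 h11
  obtain ⟨d, rfl⟩ := h10
  have hq0 : (q : ℚ) ≠ 0 := by exact_mod_cast hq.ne_zero
  have hbd : 2 * b = d := by
    have : (q : ℚ) * (2 * b) = q * d := by rw [← hc]; push_cast; ring
    exact mul_left_cancel₀ hq0 this
  have hq0' : (q : ℤ) ≠ 0 := by exact_mod_cast hq.ne_zero
  have h12 : q * d ^ 2 = 4 * n - t ^ 2 := by
    have : (q : ℤ) * (q * d ^ 2) = q * (4 * n - t ^ 2) := by rw [← h9]; ring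
    exact mul_left_cancel₀ hq0' this
  have h13 : (2 : ℤ) ∣ t - d := by
    obtain ⟨k, hk⟩ : ∃ k : ℕ, q = 4 * k + 3 := ⟨q / 4, by omega⟩
    have h14 : (2 : ℤ) ∣ (t - d) * (t - d) := by
      refine ⟨2 * n - (2 * k + 1) * d ^ 2 - t * d, ?_⟩
      rw [hk] at h12
      push_cast at h12
      linear_combination h12
    rcases (Int.prime_two.dvd_mul).1 h14 with h | h <;> exact h
  refine ⟨t, d, ?_, h13⟩
  have h15 : ((2 * a : ℚ) : K) = ((t : ℚ) : K) := by rw [ht]
  have h16 : ((2 * b : ℚ) : K) = ((d : ℚ) : K) := by rw [hbd]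
  push_cast at h15 h16
  rw [hxdef, mul_add, ← mul_assoc, h15, h16]

theorem exists_W (hK : Module.finrank ℚ K = 2) (hs : s ^ 2 = -(q : K)) (hq : Squarefree q)
    (hq8 : q % 8 = 7) : ∃ (W : 𝓞 K) (k : ℤ), 2 * algebraMap (𝓞 K) K W = 1 + s ∧
      W * (1 - W) = 2 * k ∧ ∀ x : 𝓞 K, ∃ a b : ℤ, x = a + b * W := by
  obtain ⟨k, hk⟩ : ∃ k : ℕ, q + 1 = 8 * k := ⟨(q + 1) / 8, by omega⟩
  have hkK : (q : K) + 1 = 8 * k := by exact_mod_cast hk
  have hw : ((1 + s) / 2) ^ 2 - (1 + s) / 2 + 2 * k = 0 := by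
    linear_combination (1 / 4 : K) * hs - (1 / 4 : K) * hkK
  have h1 : IsIntegral ℤ ((1 + s) / 2) := by
    refine ⟨Polynomial.X ^ 2 - Polynomial.X + 2 * (k : Polynomial ℤ), ?_, ?_⟩
    · have : (2 * (k : Polynomial ℤ)) = Polynomial.C (2 * (k : ℤ)) := by simp
      rw [this]
      monicity!
    · simp [Polynomial.eval₂_sub, Polynomial.eval₂_add, Polynomial.eval₂_pow,
        Polynomial.eval₂_mul, hw]
  obtain ⟨W, hW⟩ : ∃ W : 𝓞 K, algebraMap (𝓞 K) K W = (1 + s) / 2 := ⟨⟨_, h1⟩, rfl⟩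
  refine ⟨W, k, by rw [hW]; ring, ?_, ?_⟩
  · apply RingOfIntegers.ext
    show algebraMap (𝓞 K) K _ = algebraMap (𝓞 K) K _
    rw [map_mul, map_sub, map_one, hW, map_mul, map_ofNat, int_coe]
    push_cast
    linear_combination -hw
  · intro x
    obtain ⟨a, b, hab, c, hc⟩ := exists_int_coords hK hs hq (by omega) x.isIntegral_coe
    refine ⟨c, b, ?_⟩
    apply RingOfIntegers.ext
    show algebraMap (𝓞 K) K _ = algebraMap (𝓞 K) K _
    rw [map_add, map_mul, int_coe, int_coe, hW]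
    have hc' : (a : K) - b = 2 * c := by exact_mod_cast congrArg (Int.cast (R := K)) hc
    have h2 : 2 * algebraMap (𝓞 K) K x = 2 * (c + b * ((1 + s) / 2)) := by
      linear_combination hab + hc'
    exact mul_left_cancel₀ two_ne_zero h2

variable {v : HeightOneSpectrum (𝓞 K)}

theorem dyadic (hK : Module.finrank ℚ K = 2) (hs : s ^ 2 = -(q : K)) (hq : Squarefree q)
    (hq8 : q % 8 = 7) (hv : (2 : 𝓞 K) ∈ v.asIdeal) :
    (∀ x : 𝓞 K, x ∈ v.asIdeal ∨ x - 1 ∈ v.asIdeal) ∧ v.valuation K (2 : K) = exp (-1) := by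
  obtain ⟨W0, k, -, hWk0, hx0⟩ := exists_W hK hs hq hq8
  obtain ⟨W, hWv, hWk, hx⟩ : ∃ W : 𝓞 K, W ∈ v.asIdeal ∧ W * (1 - W) = 2 * k ∧
      ∀ x : 𝓞 K, ∃ a b : ℤ, x = a + b * W := by
    have h1 : W0 * (1 - W0) ∈ v.asIdeal := by
      rw [hWk0]
      exact v.asIdeal.mul_mem_right _ hv
    rcases v.isPrime.mem_or_mem h1 with h | h
    · exact ⟨W0, h, hWk0, hx0⟩
    · refine ⟨1 - W0, h, by rw [← hWk0]; ring, fun x => ?_⟩
      obtain ⟨a, b, rfl⟩ := hx0 x
      exact ⟨a + b, -b, by push_cast; ring⟩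
  have hv' : ((2 : ℕ) : 𝓞 K) ∈ v.asIdeal := by exact_mod_cast hv
  constructor
  · intro x
    obtain ⟨a, b, rfl⟩ := hx x
    rcases Int.even_or_odd' a with ⟨c, hc | hc⟩
    · left
      rw [hc]
      push_cast
      exact v.asIdeal.add_mem (v.asIdeal.mul_mem_right _ hv) (v.asIdeal.mul_mem_left _ hWv)
    · right
      rw [hc]
      push_cast
      rw [show (2 : 𝓞 K) * c + 1 + b * W - 1 = 2 * c + b * W by ring]
      exact v.asIdeal.add_mem (v.asIdeal.mul_mem_right _ hv) (v.asIdeal.mul_mem_left _ hWv)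
  · have hlt : v.valuation K (2 : K) < 1 := by
      have := val_int_lt_one (K := K) hv' (n := (2 : ℤ)) dvd_rfl
      simpa using this
    have hle : v.valuation K (2 : K) ≤ exp (-1) := le_exp_of_lt (n := 0) (by rwa [exp_zero])
    refine le_antisymm hle ?_
    obtain ⟨π, hπ⟩ := v.intValuation_exists_uniformizer
    obtain ⟨a, b, hab⟩ := hx π
    have hπv : π ∈ v.asIdeal := by
      rw [← HeightOneSpectrum.valuation_lt_one_iff_mem (K := K),
        HeightOneSpectrum.valuation_of_algebraMap, hπ, ← exp_zero, exp_lt_exp]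
      norm_num
    have hav : (a : 𝓞 K) ∈ v.asIdeal := by
      have := v.asIdeal.sub_mem hπv (v.asIdeal.mul_mem_left (b : 𝓞 K) hWv)
      rwa [hab, add_sub_cancel_right] at this
    obtain ⟨c, hc⟩ := dvd_of_mem Nat.prime_two hv' hav
    have e : π * (1 - W) = 2 * (c * (1 - W) + b * k) := by
      rw [hab, hc]
      push_cast
      linear_combination (b : 𝓞 K) * hWk
    have h1W : v.valuation K (algebraMap (𝓞 K) K (1 - W)) = 1 := by
      rw [HeightOneSpectrum.valuation_eq_one_iff_notMem]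
      intro h
      have := v.asIdeal.add_mem h hWv
      rw [sub_add_cancel] at this
      exact one_notMem v this
    have h2 : v.valuation K (algebraMap (𝓞 K) K (π * (1 - W))) = exp (-1) := by
      rw [map_mul, map_mul, h1W, mul_one, HeightOneSpectrum.valuation_of_algebraMap, hπ]
    rw [← h2, e, map_mul, map_mul, map_ofNat]
    calc _ ≤ v.valuation K (2 : K) * 1 := mul_le_mul' le_rfl (v.valuation_le_one _)
      _ = _ := mul_one _

end Qd

end Pool.Agent.Work.MP_8efaaa_nt.T
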