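import Mathlib

/-!
# T/CDefs: the curves (fixed file)

`cE : y ^ 2 = x ^ 3 + 4 x`, with the point `Q = (2, 4)` of order 4, `2 Q = (0, 0)`, and
`cP : y ^ 2 = x ^ 3 - 24 x ^ 2 + 16 x`; there is an isogeny `cP → cE` of degree 4 whose kernel is
`{0, (0, 0), (4, 16 i), (4, -16 i)}`.
-/

set_option autoImplicit false

namespace Pool.Agent.Work.MP_8efaaa_nt.T

open WeierstrassCurve WeierstrassCurve.Affine

/-- the curve `y ^ 2 = x ^ 3 + 4 x` -/
def cE (R : Type*) [CommRing R] : WeierstrassCurve.Affine R := ⟨0, 0, 0, 4, 0⟩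

/-- the curve `y ^ 2 = x ^ 3 - 24 x ^ 2 + 16 x` -/
def cP (R : Type*) [CommRing R] : WeierstrassCurve.Affine R := ⟨0, -24, 0, 16, 0⟩

variable {F : Type*} [Field F]

/-- the function with divisor `4 (2, 4) - 4 (0)` on `cE` -/
def fE (x y : F) : F := (y - 2 * x) ^ 2 / x

/-- the function on `cP` whose fourth power is the pullback of `fE` -/
def gP (x y : F) : F := y / (4 * x) - (x + 4) / (x - 4)

/-- first coordinate of the isogeny `cP → cE` -/
def psX (x y : F) : F := (y * (16 - x ^ 2)) ^ 2 / (16 * x ^ 2 * (x - 4) ^ 4)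

/-- second coordinate of the isogeny `cP → cE` -/
def psY (x y : F) : F :=
  -(y * (16 - x ^ 2)) * (256 * x ^ 2 + (x - 4) ^ 4) / (64 * x ^ 2 * (x - 4) ^ 4)

/-- the points of the kernel of the isogeny -/
def InKer {W : WeierstrassCurve.Affine F} : W.Point → Prop
  | .zero => True
  | .some x _ _ => x = 0 ∨ x = 4

open scoped Classical in
/-- the pairing of a point of the kernel with the kernel of the dual isogeny -/
noncomputable def eP {W : WeierstrassCurve.Affine F} : W.Point → F
  | .zero => 1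
  | .some x y _ => if x = 4 then -y / 16 else -1

end Pool.Agent.Work.MP_8efaaa_nt.T
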