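import Mathlib
import Pool.Agent.Work.MP_8efaaa_nt.T.Defs
import Pool.Agent.Work.MP_8efaaa_nt.T.Quad
import Pool.Agent.Work.MP_787500_nt.HC.Basic
import Pool.Agent.Work.MP_787500_nt.HC.LatB
import Pool.Agent.Work.CM.Rep
import Pool.Agent.Work.CM.Hom

/-!
# T/LatA: copy of `MP_787500_nt/HC/LatA` for squarefree `q = 7 (mod 8)`
-/

set_option autoImplicit false

namespace Pool.Agent.Work.MP_8efaaa_nt.T

open Pool.Agent.Work.MP_787500_nt Pool.Agent.Work.MP_787500_nt.HC
open WithZero IsDedekindDomain NumberField Pool.Agent.Work.CM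
open scoped Pointwise nonZeroDivisors

universe u

variable {K : Type*} [Field K] [NumberField K] [Algebra K ℂ] {q : ℕ} {s : K}

private theorem isLat_one (hb : Base K q s) : IsLat (lat (1 : Idl K)) := by
  obtain ⟨hK, hs, hq, hq16⟩ := hb
  obtain ⟨W, k, hW, -, hx⟩ := Qd.exists_W hK hs hq (by omega)
  set φ := algebraMap K ℂ with hφ
  obtain ⟨hre, him⟩ := Quad.emb_re_im hs (Nat.pos_of_ne_zero hq.ne_zero) φ
  set w : ℂ := φ (algebraMap (𝓞 K) K W) with hw
  have h2w : 2 * w = 1 + φ s := by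
    have := congrArg φ hW
    rw [map_mul, map_add, map_one, map_ofNat] at this
    exact this
  have hq0 : (0 : ℝ) < q := by exact_mod_cast (Nat.pos_of_ne_zero hq.ne_zero)
  have hims : (φ s).im ≠ 0 := by
    intro h0
    rw [h0] at him
    norm_num at him
    rw [← him] at hq0
    exact lt_irrefl _ hq0
  have hwim : w.im ≠ 0 := by
    intro h0
    have h1 := congrArg Complex.im h2w
    simp only [Complex.mul_im, Complex.re_ofNat, Complex.im_ofNat, Complex.add_im, Complex.one_im,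
      h0] at h1
    apply hims
    linarith
  have hind : LinearIndependent ℝ ![(1 : ℂ), w] := by
    rw [LinearIndependent.pair_iff]
    intro x y hxy
    rw [Complex.real_smul, Complex.real_smul] at hxy
    have h1 := congrArg Complex.im hxy
    have h2 := congrArg Complex.re hxy
    simp at h1 h2
    have hy : y = 0 := by
      rcases h1 with h1 | h1
      · exact h1
      · exact absurd h1 hwim
    rw [hy] at h2
    simp at h2
    exact ⟨h2, hy⟩
  refine ⟨⟨1, w, hind⟩, ?_⟩
  ext z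
  rw [PeriodPair.mem_lattice, mem_lat]
  constructor
  · rintro ⟨m, n, rfl⟩
    refine ⟨algebraMap (𝓞 K) K ((m : 𝓞 K) + (n : 𝓞 K) * W), ?_, ?_⟩
    · rw [Units.val_one, FractionalIdeal.mem_one_iff]
      exact ⟨_, rfl⟩
    · rw [map_add, map_mul, map_intCast, map_intCast, map_add, map_mul, map_intCast, map_intCast,
        mul_one]
  · rintro ⟨x, hx1, rfl⟩
    rw [Units.val_one, FractionalIdeal.mem_one_iff] at hx1
    obtain ⟨y, rfl⟩ := hx1
    obtain ⟨a, b, rfl⟩ := hx y
    refine ⟨a, b, ?_⟩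
    rw [map_add, map_mul, map_intCast, map_intCast, map_add, map_mul, map_intCast, map_intCast,
      mul_one]

theorem isLat_lat (hb : Base K q s) (I : Idl K) : IsLat (lat I) := by
  have h1 := isLat_one hb
  obtain ⟨x, hx, hx0⟩ : ∃ x : K, x ∈ (I : FractionalIdeal (𝓞 K)⁰ K) ∧ x ≠ 0 := by
    have hne : ((I : FractionalIdeal (𝓞 K)⁰ K) : Submodule (𝓞 K) K) ≠ ⊥ := by
      intro h0
      exact I.ne_zero (FractionalIdeal.coeToSubmodule_eq_bot.1 h0)
    obtain ⟨x, hx, hx0⟩ := Submodule.exists_mem_ne_zero_of_ne_bot hne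
    exact ⟨x, hx, hx0⟩
  obtain ⟨d, hd, hdI⟩ := (I : FractionalIdeal (𝓞 K)⁰ K).isFractional
  have hd0 : d ≠ 0 := nonZeroDivisors.ne_zero hd
  have hdK : algebraMap (𝓞 K) K d ≠ 0 := by
    intro h0
    exact hd0 ((FaithfulSMul.algebraMap_injective (𝓞 K) K) (by rw [h0, map_zero]))
  have hm : algebraMap K ℂ x ≠ 0 := (map_ne_zero _).2 hx0
  have hd' : algebraMap K ℂ (algebraMap (𝓞 K) K d)⁻¹ ≠ 0 := (map_ne_zero _).2 (inv_ne_zero hdK)
  refine isLat_of_sandwich h1 (h1.smul hd') hm ?_ ?_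
  · have h2 := lat_prin (Units.mk0 x hx0) (1 : Idl K)
    rw [Units.val_mk0] at h2
    rw [← h2, lat_le, mul_one]
    unfold prin
    rw [coe_toPrincipalIdeal, Units.val_mk0, FractionalIdeal.spanSingleton_le_iff_mem]
    exact hx
  · have h2 := lat_prin (Units.mk0 (algebraMap (𝓞 K) K d) hdK)⁻¹ (1 : Idl K)
    rw [Units.val_inv_eq_inv_val, Units.val_mk0] at h2
    rw [← h2, lat_le, mul_one]
    unfold prin
    rw [coe_toPrincipalIdeal]
    intro y hy
    obtain ⟨b, hb'⟩ := hdI y hy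
    rw [Units.val_inv_eq_inv_val, Units.val_mk0, FractionalIdeal.mem_spanSingleton]
    refine ⟨b, ?_⟩
    rw [Algebra.smul_def, hb', Algebra.smul_def, mul_comm, ← mul_assoc, inv_mul_cancel₀ hdK,
      one_mul]

end Pool.Agent.Work.MP_8efaaa_nt.T
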