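import Mathlib
import Pool.Agent.Work.MP_8efaaa_nt.T.Defs
import Pool.Agent.Work.MP_8efaaa_nt.T.Quad
import Pool.Agent.Work.MP_787500_nt.HC.Basic
import Pool.Agent.Work.MP_8efaaa_nt.T.LatA
import Pool.Agent.Work.MP_787500_nt.HC.LatB

/-!
# T/LatD: copy of `MP_787500_nt/HC/LatD` for squarefree `q = 7 (mod 8)`
-/

set_option autoImplicit false

namespace Pool.Agent.Work.MP_8efaaa_nt.T

open Pool.Agent.Work.MP_787500_nt Pool.Agent.Work.MP_787500_nt.HC
open WithZero IsDedekindDomain NumberField Pool.Agent.Work.CM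
open scoped Pointwise nonZeroDivisors

universe u

variable {K : Type*} [Field K] [NumberField K] [Algebra K ℂ] {q : ℕ} {s : K}

private theorem pr_le_one (v : HeightOneSpectrum (𝓞 K)) :
    ((pr v : Idl K) : FractionalIdeal (𝓞 K)⁰ K) ≤ 1 := by
  unfold pr
  rw [Units.val_mk0]
  exact FractionalIdeal.coeIdeal_le_one

private theorem pr_ne_one (v : HeightOneSpectrum (𝓞 K)) : (pr v : Idl K) ≠ 1 := by
  intro h
  have h1 := congrArg (Units.val) h
  unfold pr at h1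
  rw [Units.val_mk0, Units.val_one, ← FractionalIdeal.coeIdeal_top,
    FractionalIdeal.coeIdeal_inj] at h1
  exact v.isPrime.ne_top h1

theorem two_lat (hb : Base K q s) {v : HeightOneSpectrum (𝓞 K)} (hv : (2 : 𝓞 K) ∈ v.asIdeal)
    (I : Idl K) : Two (lat I) (lat ((pr v)⁻¹ * I)) := by
  set J : Idl K := (pr v)⁻¹ * I with hJ
  have hIJ : I = pr v * J := by rw [hJ, mul_inv_cancel_left]
  have hIJ' : (I : FractionalIdeal (𝓞 K)⁰ K) = (pr v : Idl K) * (J : FractionalIdeal (𝓞 K)⁰ K) := by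
    rw [← Units.val_mul, ← hIJ]
  have hle : (I : FractionalIdeal (𝓞 K)⁰ K) ≤ (J : FractionalIdeal (𝓞 K)⁰ K) := by
    rw [hIJ']
    calc ((pr v : Idl K) : FractionalIdeal (𝓞 K)⁰ K) * (J : FractionalIdeal (𝓞 K)⁰ K)
        ≤ 1 * (J : FractionalIdeal (𝓞 K)⁰ K) := mul_le_mul_left (pr_le_one v) _
      _ = _ := one_mul _
  obtain ⟨u, huJ, huI⟩ : ∃ u, u ∈ (J : FractionalIdeal (𝓞 K)⁰ K) ∧
      u ∉ (I : FractionalIdeal (𝓞 K)⁰ K) := by
    by_contra hcon
    push Not at hcon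
    have h1 : I = J := Units.ext (le_antisymm hle hcon)
    rw [h1] at hIJ
    exact pr_ne_one v (mul_eq_right.1 hIJ.symm)
  set Y : FractionalIdeal (𝓞 K)⁰ K :=
    (I : FractionalIdeal (𝓞 K)⁰ K) + FractionalIdeal.spanSingleton (𝓞 K)⁰ u with hY
  have hYJ : Y ≤ (J : FractionalIdeal (𝓞 K)⁰ K) := by
    rw [hY, ← FractionalIdeal.sup_eq_add]
    exact sup_le hle (FractionalIdeal.spanSingleton_le_iff_mem.2 huJ)
  have hIY : (I : FractionalIdeal (𝓞 K)⁰ K) ≤ Y := by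
    rw [hY, ← FractionalIdeal.sup_eq_add]
    exact le_sup_left
  have huY : u ∈ Y := by
    rw [hY, FractionalIdeal.mem_add]
    exact ⟨0, FractionalIdeal.zero_mem _, u, FractionalIdeal.mem_spanSingleton_self _ _, zero_add _⟩
  have hJJ : (J : FractionalIdeal (𝓞 K)⁰ K) * ((J⁻¹ : Idl K) : FractionalIdeal (𝓞 K)⁰ K) = 1 := by
    rw [← Units.val_mul, mul_inv_cancel, Units.val_one]
  have hX1 : Y * ((J⁻¹ : Idl K) : FractionalIdeal (𝓞 K)⁰ K) ≤ 1 := by
    rw [← hJJ]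
    exact mul_le_mul_left hYJ _
  obtain ⟨N, hN⟩ := FractionalIdeal.le_one_iff_exists_coeIdeal.1 hX1
  have hNle : v.asIdeal ≤ N := by
    rw [← FractionalIdeal.coeIdeal_le_coeIdeal K, hN]
    have h1 : (v.asIdeal : FractionalIdeal (𝓞 K)⁰ K) =
        (I : FractionalIdeal (𝓞 K)⁰ K) * ((J⁻¹ : Idl K) : FractionalIdeal (𝓞 K)⁰ K) := by
      rw [hIJ', mul_assoc, hJJ, mul_one]
      rfl
    rw [h1]
    exact mul_le_mul_left hIY _
  have hYN : Y = (N : FractionalIdeal (𝓞 K)⁰ K) * (J : FractionalIdeal (𝓞 K)⁰ K) := by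
    rw [hN, mul_assoc, mul_comm ((J⁻¹ : Idl K) : FractionalIdeal (𝓞 K)⁰ K), hJJ, mul_one]
  have hNtop : N = ⊤ := by
    by_contra hne
    have h1 := (v.isMaximal.eq_of_le hne hNle)
    apply huI
    rw [hIJ']
    rw [← h1] at hYN
    rw [hYN] at huY
    exact huY
  rw [hNtop, FractionalIdeal.coeIdeal_top, one_mul] at hYN
  obtain ⟨hK, hs, hq, hq16⟩ := hb
  have hdy := (Qd.dyadic hK hs hq (by omega) hv).1
  have hmulI : ∀ a : 𝓞 K, a ∈ v.asIdeal → algebraMap (𝓞 K) K a * u ∈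
      (I : FractionalIdeal (𝓞 K)⁰ K) := by
    intro a ha
    rw [hIJ']
    refine FractionalIdeal.mul_mem_mul ?_ huJ
    show algebraMap (𝓞 K) K a ∈ (v.asIdeal : FractionalIdeal (𝓞 K)⁰ K)
    rw [FractionalIdeal.mem_coeIdeal]
    exact ⟨a, ha, rfl⟩
  refine ⟨isLat_lat ⟨hK, hs, hq, hq16⟩ I, isLat_lat ⟨hK, hs, hq, hq16⟩ _, lat_le.2 hle,
    algebraMap K ℂ u, ⟨u, huJ, rfl⟩, ?_, ?_⟩
  · rintro ⟨y, hy, h⟩
    rw [(algebraMap K ℂ).injective h] at hy
    exact huI hy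
  · rintro _ ⟨z, hz, rfl⟩
    rw [← hYN, hY, FractionalIdeal.mem_add] at hz
    obtain ⟨y, hy, w, hw, rfl⟩ := hz
    obtain ⟨a, rfl⟩ := (FractionalIdeal.mem_spanSingleton _).1 hw
    rcases hdy a with ha | ha
    · left
      refine ⟨_, ?_, rfl⟩
      rw [Algebra.smul_def]
      exact ((I : FractionalIdeal (𝓞 K)⁰ K) : Submodule (𝓞 K) K).add_mem hy (hmulI a ha)
    · right
      refine ⟨y + algebraMap (𝓞 K) K (a - 1) * u, ?_, ?_⟩
      · exact ((I : FractionalIdeal (𝓞 K)⁰ K) : Submodule (𝓞 K) K).add_mem hy (hmulI _ ha)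
      · rw [← map_sub]
        congr 1
        rw [Algebra.smul_def, map_sub, map_one]
        ring

theorem lat_pr_ne {v v' : HeightOneSpectrum (𝓞 K)} (h : v ≠ v') (I : Idl K) :
    lat ((pr v)⁻¹ * I) ≠ lat ((pr v')⁻¹ * I) := by
  intro h1
  have h2 := lat_injective h1
  have h3 : (pr v : Idl K) = pr v' := inv_injective (mul_right_cancel h2)
  apply h
  have h4 := congrArg (Units.val) h3
  unfold pr at h4
  rw [Units.val_mk0, Units.val_mk0, FractionalIdeal.coeIdeal_inj] at h4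
  exact HeightOneSpectrum.ext h4

end Pool.Agent.Work.MP_8efaaa_nt.T
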