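import Mathlib
import Pool.Agent.Work.MP_8efaaa_nt.T.Defs
import Pool.Agent.Work.MP_8efaaa_nt.T.Quad
import Pool.Agent.Work.MP_787500_nt.HC.Basic
import Pool.Agent.Work.MP_8efaaa_nt.T.LatA
import Pool.Agent.Work.MP_787500_nt.HC.LatB
import Pool.Agent.Work.MP_787500_nt.HC.LatC
import Pool.Agent.Work.CM.Kl2

/-!
# T/LatF: copy of `MP_787500_nt/HC/LatF` for squarefree `q = 7 (mod 8)`
-/

set_option autoImplicit false

namespace Pool.Agent.Work.MP_8efaaa_nt.T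

open Pool.Agent.Work.MP_787500_nt Pool.Agent.Work.MP_787500_nt.HC
open WithZero IsDedekindDomain NumberField Pool.Agent.Work.CM
open scoped Pointwise nonZeroDivisors

universe u

variable {K : Type*} [Field K] [NumberField K] [Algebra K ℂ] {q : ℕ} {s : K}

theorem conj_lat (hb : Base K q s) (σ : ℂ ≃ₐ[K] ℂ) : ∃ (c : Idl K) (μ : ℂ), μ ≠ 0 ∧
    ∀ I : Idl K, conj (σ : ℂ ≃+* ℂ) (lat I) = μ • lat (c * I) := by
  obtain ⟨μ, D, hμ, hD, hDK, hBD, hall⟩ := conj_eq σ (isLat_lat hb (1 : Idl K)) (inK_lat 1)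
    one_mem_lat (lat_one_mul 1)
  obtain ⟨c, rfl⟩ := exists_lat hD hDK hBD
  refine ⟨c, μ, hμ, fun I => ?_⟩
  rw [hall (lat I) (isLat_lat hb I) (inK_lat I) (lat_one_mul I), ← lat_mul, mul_comm]

end Pool.Agent.Work.MP_8efaaa_nt.T
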