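import Mathlib
import Pool.Agent.Work.MP_8efaaa_nt.T.Defs
import Pool.Agent.Work.MP_8efaaa_nt.T.Quad
import Pool.Agent.Work.MP_787500_nt.HC.Basic

/-!
# T/LatE: copy of `MP_787500_nt/HC/LatE` for squarefree `q = 7 (mod 8)`
-/

set_option autoImplicit false

namespace Pool.Agent.Work.MP_8efaaa_nt.T

open Pool.Agent.Work.MP_787500_nt Pool.Agent.Work.MP_787500_nt.HC
open WithZero IsDedekindDomain NumberField
open scoped Pointwise nonZeroDivisors

universe u

variable {K : Type*} [Field K] [NumberField K] {q : ℕ} {s : K}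

private theorem dyad_place {q : ℕ} {s : K} (hs : s ^ 2 = -(q : K)) (hq : 0 < q) {W : 𝓞 K} {k : ℤ}
    (h1 : 2 * algebraMap (𝓞 K) K W = 1 + s) (h2 : W * (1 - W) = 2 * k)
    (h3 : ∀ x : 𝓞 K, ∃ a b : ℤ, x = a + b * W) :
    ∃ v : HeightOneSpectrum (𝓞 K), (2 : 𝓞 K) ∈ v.asIdeal ∧ W ∈ v.asIdeal := by
  have hne : Ideal.span {(2 : 𝓞 K), W} ≠ ⊤ := by
    intro htop
    have h4 : (1 : 𝓞 K) ∈ Ideal.span {(2 : 𝓞 K), W} := by rw [htop]; trivial
    rw [Ideal.mem_span_pair] at h4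
    obtain ⟨x, y, hxy⟩ := h4
    obtain ⟨a, b, rfl⟩ := h3 x
    obtain ⟨c, d, rfl⟩ := h3 y
    have h5 : ((2 * a - 2 * k * d : ℤ) : 𝓞 K) + ((2 * b + c + d : ℤ) : 𝓞 K) * W = 1 := by
      push_cast
      linear_combination hxy + (d : 𝓞 K) * h2
    have h6 : ((2 * a - 2 * k * d : ℤ) : K) + ((2 * b + c + d : ℤ) : K) *
        algebraMap (𝓞 K) K W = 1 := by
      have := congrArg (algebraMap (𝓞 K) K) h5
      rw [map_add, map_mul, map_intCast, map_intCast, map_one] at this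
      exact this
    have h7 : (((2 * (2 * a - 2 * k * d) + (2 * b + c + d) - 2 : ℤ) : ℚ) : K) +
        (((2 * b + c + d : ℤ) : ℚ) : K) * s = 0 := by
      push_cast at h6 ⊢
      linear_combination 2 * h6 - (2 * (b : K) + c + d) * h1
    obtain ⟨g1, g2⟩ := Quad.not_rat hs hq _ _ h7
    have g1' : 2 * (2 * a - 2 * k * d) + (2 * b + c + d) - 2 = 0 := by exact_mod_cast g1
    have g2' : 2 * b + c + d = 0 := by exact_mod_cast g2
    rw [g2'] at g1'
    have g3 : 2 * (a - k * d) = 1 := by linarith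
    omega
  obtain ⟨M, hM, hle⟩ := Ideal.exists_le_maximal _ hne
  have m2 : (2 : 𝓞 K) ∈ M := hle (Ideal.subset_span (by simp))
  have mW : W ∈ M := hle (Ideal.subset_span (by simp))
  refine ⟨⟨M, hM.isPrime, ?_⟩, m2, mW⟩
  rintro rfl
  exact two_ne_zero (α := 𝓞 K) m2

/-- an element of the place is even modulo `W` -/
private theorem even_of_mem {W : 𝓞 K} {v : HeightOneSpectrum (𝓞 K)} (h2 : (2 : 𝓞 K) ∈ v.asIdeal)
    (hW : W ∈ v.asIdeal) {a b : ℤ} (h : (a : 𝓞 K) + b * W ∈ v.asIdeal) : (2 : ℤ) ∣ a := by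
  have h1 : (a : 𝓞 K) ∈ v.asIdeal := by
    have := v.asIdeal.sub_mem h (v.asIdeal.mul_mem_left (b : 𝓞 K) hW)
    simpa using this
  exact Quad.dvd_of_mem (l := 2) Nat.prime_two (by exact_mod_cast h2) h1

theorem exists_places (hb : Base K q s) : ∃ v v' : HeightOneSpectrum (𝓞 K), v ≠ v' ∧
    (2 : 𝓞 K) ∈ v.asIdeal ∧ (2 : 𝓞 K) ∈ v'.asIdeal ∧
    pr v * pr v' = prin (Units.mk0 (2 : K) two_ne_zero) := by
  obtain ⟨hK, hs, hq, hq16⟩ := hb
  obtain ⟨W, k, hW1, hW2, hW3⟩ := Qd.exists_W hK hs hq (by omega)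
  obtain ⟨v, v2, vW⟩ := dyad_place hs (Nat.pos_of_ne_zero hq.ne_zero) hW1 hW2 hW3
  obtain ⟨v', v2', vW'⟩ := dyad_place (s := -s) (q := q) (W := 1 - W) (k := k)
    (by rw [neg_sq]; exact hs) (Nat.pos_of_ne_zero hq.ne_zero) (by rw [map_sub, map_one]; linear_combination -hW1)
    (by rw [← hW2]; ring) (fun x => by
      obtain ⟨a, b, rfl⟩ := hW3 x
      exact ⟨a + b, -b, by push_cast; ring⟩)
  have hcop : IsCoprime v.asIdeal v'.asIdeal := by
    rw [Ideal.isCoprime_iff_exists]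
    exact ⟨W, vW, 1 - W, vW', by ring⟩
  have hne : v ≠ v' := by
    rintro rfl
    rw [Ideal.isCoprime_iff_sup_eq, sup_idem] at hcop
    exact v.isPrime.ne_top hcop
  have hprod : v.asIdeal * v'.asIdeal = Ideal.span {(2 : 𝓞 K)} := by
    rw [Ideal.mul_eq_inf_of_isCoprime hcop]
    apply le_antisymm
    · rintro x ⟨hx, hx'⟩
      obtain ⟨a, b, rfl⟩ := hW3 x
      have e1 := even_of_mem v2 vW hx
      have hx'' : ((a + b : ℤ) : 𝓞 K) + ((-b : ℤ) : 𝓞 K) * (1 - W) ∈ v'.asIdeal := by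
        have e : ((a + b : ℤ) : 𝓞 K) + ((-b : ℤ) : 𝓞 K) * (1 - W) = a + b * W := by
          push_cast
          ring
        rw [e]
        exact hx'
      have e2 := even_of_mem v2' vW' hx''
      obtain ⟨c, rfl⟩ := e1
      obtain ⟨d, hd⟩ : (2 : ℤ) ∣ b := by omega
      rw [Ideal.mem_span_singleton]
      refine ⟨c + d * W, ?_⟩
      rw [hd]
      push_cast
      ring
    · rw [Ideal.span_singleton_le_iff_mem]
      exact ⟨v2, v2'⟩
  refine ⟨v, v', hne, v2, v2', ?_⟩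
  apply Units.ext
  rw [Units.val_mul]
  unfold pr prin
  rw [Units.val_mk0, Units.val_mk0, coe_toPrincipalIdeal, Units.val_mk0,
    ← FractionalIdeal.coeIdeal_mul, hprod, FractionalIdeal.coeIdeal_span_singleton, map_ofNat]

end Pool.Agent.Work.MP_8efaaa_nt.T
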