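import Mathlib
import Pool.Agent.Work.MP_787500_nt.HC.Basic
import Pool.Agent.Work.MP_787500_nt.HC.ClsA
import Pool.Agent.Work.MP_787500_nt.HC.TrA
import Pool.Agent.Work.MP_8efaaa_nt.T.LatE
import Pool.Agent.Work.MP_8efaaa_nt.T.CpxA

/-!
# T/Ctx: the functions `W`, `W'` exist
-/

set_option autoImplicit false

namespace Pool.Agent.Work.MP_8efaaa_nt.T

open Pool.Agent.Work.MP_787500_nt Pool.Agent.Work.MP_787500_nt.HC
open WithZero IsDedekindDomain NumberField Pool.Agent.Work.CM
open scoped Pointwise nonZeroDivisors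

universe u

/-- the other place above 2 -/
theorem exists_other {K : Type u} [Field K] [NumberField K] {q : ℕ} {s : K} (hb : Base K q s)
    {v : HeightOneSpectrum (𝓞 K)} (hv : (2 : 𝓞 K) ∈ v.asIdeal) :
    ∃ v' : HeightOneSpectrum (𝓞 K), v ≠ v' ∧ (2 : 𝓞 K) ∈ v'.asIdeal ∧
      pr v * pr v' = prin (Units.mk0 (2 : K) two_ne_zero) := by
  obtain ⟨v1, v2, hne, h1, h2, h12⟩ := exists_places hb
  have hprod : v1.asIdeal * v2.asIdeal = Ideal.span {(2 : 𝓞 K)} := by
    have h := congrArg Units.val h12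
    rw [Units.val_mul] at h
    unfold pr prin at h
    rw [Units.val_mk0, Units.val_mk0, coe_toPrincipalIdeal, Units.val_mk0,
      ← FractionalIdeal.coeIdeal_mul] at h
    have e : FractionalIdeal.spanSingleton (𝓞 K)⁰ (2 : K) =
        ((Ideal.span {(2 : 𝓞 K)} : Ideal (𝓞 K)) : FractionalIdeal (𝓞 K)⁰ K) := by
      rw [FractionalIdeal.coeIdeal_span_singleton, map_ofNat]
    rw [e, FractionalIdeal.coeIdeal_inj] at h
    exact h
  have hle : v1.asIdeal * v2.asIdeal ≤ v.asIdeal := by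
    rw [hprod, Ideal.span_singleton_le_iff_mem]
    exact hv
  rcases (v.isPrime.mul_le).1 hle with h | h
  · have e : v1 = v := HeightOneSpectrum.ext (v1.isMaximal.eq_of_le v.isPrime.ne_top h)
    subst e
    exact ⟨v2, hne, h2, h12⟩
  · have e : v2 = v := HeightOneSpectrum.ext (v2.isMaximal.eq_of_le v.isPrime.ne_top h)
    subst e
    exact ⟨v1, hne.symm, h1, by rw [mul_comm, h12]⟩

theorem exists_wctx {K : Type u} [Field K] [NumberField K] {q : ℕ} {s : K} (hb : Base K q s)
    {v : HeightOneSpectrum (𝓞 K)} (hv : (2 : 𝓞 K) ∈ v.asIdeal) :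
    ∃ W W' : ClassGroup (𝓞 K) → AlgebraicClosure K, WCtx K v W W' := by
  obtain ⟨φ⟩ : Nonempty (K →+* ℂ) := inferInstance
  let _ : Algebra K ℂ := φ.toAlgebra
  obtain ⟨v', hne, hv', h2⟩ := exists_other hb hv
  obtain ⟨Wc, hW⟩ := exists_class_fun (wv (pr v) (eV v)) (wv_prin hb hv)
  obtain ⟨Wc', hW'⟩ := exists_class_fun (wv (pr v') (eV v')) (wv_prin hb hv')
  have hdat := wdata_complex hb hne hv hv' h2 hW hW'
  have hact := act_complex hb hv hv' hW hW'
  obtain ⟨ψ, W, W', h3, h4, h5⟩ := transfer hact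
  have hinj : Function.Injective ψ := ψ.injective
  refine ⟨W, W', ⟨fun a => hinj ?_, fun a => hinj ?_, fun a => hinj ?_, fun a h => ?_,
    fun a h => ?_⟩, fun m β hβ c => hinj ?_, h5⟩
  · rw [map_add, map_pow, map_pow, h3, h4, map_one]
    exact hdat.four a
  · simp only [map_mul, map_pow, map_add, map_one, map_ofNat, h3]
    exact hdat.rec1 a
  · simp only [map_mul, map_pow, map_add, map_one, map_ofNat, h4]
    exact hdat.rec2 a
  · apply hdat.ne a
    rw [← h3, h, map_zero]
  · apply hdat.ne' a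
    rw [← h4, h, map_zero]
  · rw [map_pow, map_pow, map_prod, AlgHom.commutes]
    simp only [map_pow, map_add, map_one, h3]
    exact wprod_complex hb hne hv hv' h2 hW m β hβ c

end Pool.Agent.Work.MP_8efaaa_nt.T
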