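import Mathlib
import Pool.Agent.Work.MP_787500_nt.HC.ArC
import Pool.Agent.Work.MP_8efaaa_nt.T.Defs
import Pool.Agent.Work.MP_8efaaa_nt.T.Ctx

/-!
# T/Val (M): the index is divisible by 4 if the product is a fourth power

`v'` from `exists_other`. Valuations (written additively): `w(2) = 1` at `w = v, v'` (`Qd.dyadic`), `v(β) = r`,
`v'(β) = 0` (`HC.val_alpha`, `ArC.lean`; `r = orderOf`), `h = n r` (`n` the index; `Subgroup.card_mul_index`,
`Nat.card_zpowers`). `z ≠ 0`. At `v'`: `4 v'(z) = 3 h + 4 v'(k) + 5 j`, so `4 ∣ 3 h + 5 j`; at `v`: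
`4 v(z) = 3 h + n r + 4 v(k) + 5 j`, so `4 ∣ n r = h`, so `4 ∣ j`, `j = 0`. Then `z ^ 4 = e 8 ^ h β ^ n k ^ 4` and
`8 ^ h = (8 ^ (h / 4)) ^ 4`, so `β ^ n = e t ^ 4` with `t = z / (8 ^ (h / 4) k)`, and `prin t ^ 4 = prin (e)⁻¹ .. = pr v ^ (r n)`
(`prin (-1) = 1`). So `prin t = pr v ^ (r n / 4)` (fourth powers of invertible fractional ideals are injective: compare the
counts/valuations at all places, or `(prin t / pr v ^ (r n / 4)) ^ 4 = 1`, torsion free group), so
`cl (pr v) ^ (r n / 4) = 1`, `r ∣ r n / 4`, `4 ∣ n`.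
-/

set_option autoImplicit false

namespace Pool.Agent.Work.MP_8efaaa_nt.T

open IsDedekindDomain NumberField WithZero
open Pool.Agent.Work.MP_787500_nt.HC
open scoped nonZeroDivisors

universe u

private theorem idl_torsion {K : Type u} [Field K] [NumberField K] {J : Idl K} (hJ : J ^ 4 = 1) :
    J = 1 := by
  have h4 : (J : FractionalIdeal (𝓞 K)⁰ K) ^ 4 = 1 := by
    have := congrArg (fun I : Idl K => (I : FractionalIdeal (𝓞 K)⁰ K)) hJ
    simpa using this
  have hc : ∀ w : HeightOneSpectrum (𝓞 K),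
      FractionalIdeal.count K w (J : FractionalIdeal (𝓞 K)⁰ K) = 0 := by
    intro w
    have h1 := FractionalIdeal.count_pow K w 4 (J : FractionalIdeal (𝓞 K)⁰ K)
    rw [h4, FractionalIdeal.count_one] at h1
    push_cast at h1
    omega
  refine Units.ext ?_
  rw [← FractionalIdeal.finprod_heightOneSpectrum_factorization' K (Units.ne_zero J)]
  simp only [hc, zpow_zero, finprod_one, Units.val_one]

private theorem log_neg_one {K : Type u} [Field K] [NumberField K]
    (w : HeightOneSpectrum (𝓞 K)) {e : K} (he : e = 1 ∨ e = -1) :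
    log (w.valuation K e) = 0 := by
  rcases he with rfl | rfl
  · rw [map_one, log_one]
  · rw [Valuation.map_neg, map_one, log_one]

theorem four_dvd_index {K : Type u} [Field K] [NumberField K] {a : ℕ} {s : K} (hb : Base K a s)
    {v : HeightOneSpectrum (𝓞 K)} (hv : (2 : 𝓞 K) ∈ v.asIdeal) {β : Kˣ}
    (hβ : prin β = pr v ^ orderOf (cl (pr v)⁻¹)) {k z e : K} (hk : k ≠ 0) (he : e = 1 ∨ e = -1)
    {j : ℕ} (hj : j < 4)
    (h : z ^ 4 = e * 8 ^ Nat.card (ClassGroup (𝓞 K)) *
      (β : K) ^ (Subgroup.zpowers (cl (pr v)⁻¹)).index * k ^ 4 * 32 ^ j) :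
    4 ∣ (Subgroup.zpowers (cl (pr v)⁻¹)).index := by
  obtain ⟨v', hne, hv', -⟩ := exists_other hb hv
  set r := orderOf (cl (pr v)⁻¹) with hr
  set n := (Subgroup.zpowers (cl (pr v)⁻¹)).index with hn
  have hcard : Nat.card (ClassGroup (𝓞 K)) = r * n := by
    rw [hn, hr, ← Nat.card_zpowers, Subgroup.card_mul_index]
  have hr0 : 0 < r := orderOf_pos _
  have h2v : v.valuation K (2 : K) = exp (-1) := (Qd.dyadic hb.dim hb.sq hb.sf hb.mod hv).2
  have h2v' : v'.valuation K (2 : K) = exp (-1) := (Qd.dyadic hb.dim hb.sq hb.sf hb.mod hv').2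
  obtain ⟨hβv, hβv'⟩ := val_alpha hβ
  have hβv' := hβv' v' hne.symm
  have he0 : e ≠ 0 := by
    rcases he with rfl | rfl
    · exact one_ne_zero
    · exact neg_ne_zero.2 one_ne_zero
  have h20 : (2 : K) ≠ 0 := two_ne_zero
  have hz : z ≠ 0 := by
    rintro rfl
    have h1 : e * 8 ^ Nat.card (ClassGroup (𝓞 K)) * (β : K) ^ n * k ^ 4 * 32 ^ j ≠ 0 := by
      have h8 : (8 : K) ≠ 0 := by norm_num
      have h32 : (32 : K) ≠ 0 := by norm_num
      have := β.ne_zero
      positivity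
    apply h1
    rw [← h, zero_pow (by norm_num)]
  have key : ∀ w : HeightOneSpectrum (𝓞 K), w.valuation K (2 : K) = exp (-1) →
      4 * log (w.valuation K z) = -3 * ((r * n : ℕ) : ℤ) + n * log (w.valuation K (β : K)) +
        4 * log (w.valuation K k) - 5 * j := by
    intro w hw
    have h1 := congrArg (fun x => log (w.valuation K x)) h
    have e8 : (8 : K) = 2 ^ 3 := by norm_num
    have e32 : (32 : K) = 2 ^ 5 := by norm_num
    have n1 : ∀ x : K, x ≠ 0 → w.valuation K x ≠ 0 := fun x hx => (Valuation.ne_zero_iff _).2 hx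
    simp only [map_mul, map_pow, e8, e32] at h1
    have m2 := n1 2 h20
    have mβ := n1 β β.ne_zero
    have mk := n1 k hk
    have me := n1 e he0
    have p2 : ((w.valuation K 2) ^ 3) ^ Nat.card (ClassGroup (𝓞 K)) ≠ 0 :=
      pow_ne_zero _ (pow_ne_zero _ m2)
    have pβ : w.valuation K (β : K) ^ n ≠ 0 := pow_ne_zero _ mβ
    have pk : w.valuation K k ^ 4 ≠ 0 := pow_ne_zero _ mk
    have pj : ((w.valuation K 2) ^ 5) ^ j ≠ 0 := pow_ne_zero _ (pow_ne_zero _ m2)
    rw [log_mul (mul_ne_zero (mul_ne_zero (mul_ne_zero me p2) pβ) pk) pj,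
      log_mul (mul_ne_zero (mul_ne_zero me p2) pβ) pk, log_mul (mul_ne_zero me p2) pβ,
      log_mul me p2] at h1
    simp only [log_pow, hw, log_exp, log_neg_one w he, hcard] at h1
    simp only [nsmul_eq_mul] at h1
    push_cast at h1 ⊢
    linarith
  have k1 := key v' h2v'
  have k2 := key v h2v
  rw [hβv', log_one] at k1
  rw [hβv, log_exp] at k2
  have hj0 : j = 0 := by
    have h1 : 4 * (log (v.valuation K z) - log (v.valuation K k) + ((r * n : ℕ) : ℤ)) =
        -5 * (j : ℤ) := by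
      push_cast at k2 ⊢
      linarith
    omega
  subst hj0
  have h4h : 4 ∣ r * n := by
    have h1 : (4 : ℤ) ∣ 3 * ((r * n : ℕ) : ℤ) :=
      ⟨log (v'.valuation K k) - log (v'.valuation K z), by push_cast at k1 ⊢; linarith⟩
    omega
  obtain ⟨m, hm⟩ := h4h
  have h8 : (8 : K) ^ m ≠ 0 := by
    have : (8 : K) ≠ 0 := by norm_num
    exact pow_ne_zero _ this
  have ht : z / (8 ^ m * k) ≠ 0 := div_ne_zero hz (mul_ne_zero h8 hk)
  set t : Kˣ := Units.mk0 (z / (8 ^ m * k)) ht with htdef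
  have ht4 : t ^ 4 = Units.mk0 e he0 * β ^ n := by
    refine Units.ext ?_
    rw [Units.val_pow_eq_pow_val, Units.val_mul, Units.val_pow_eq_pow_val, htdef, Units.val_mk0,
      Units.val_mk0, div_pow, h, hcard, hm, mul_pow, pow_zero, mul_one, ← pow_mul, mul_comm 4 m]
    have h9 : (8 : K) ^ (m * 4) ≠ 0 := by
      have : (8 : K) ≠ 0 := by norm_num
      exact pow_ne_zero _ this
    have hk4 : k ^ 4 ≠ 0 := pow_ne_zero _ hk
    field_simp
  have hpe : prin (Units.mk0 e he0) = 1 := by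
    refine idl_torsion ?_
    have : (Units.mk0 e he0) ^ 4 = 1 := by
      refine Units.ext ?_
      rw [Units.val_pow_eq_pow_val, Units.val_mk0, Units.val_one]
      rcases he with rfl | rfl <;> norm_num
    unfold prin
    rw [← map_pow, this, map_one]
  have hJ : (prin t * (pr v ^ m)⁻¹) ^ 4 = 1 := by
    have h1 : prin t ^ 4 = pr v ^ (r * n) := by
      have h2 : prin t ^ 4 = prin (Units.mk0 e he0) * prin β ^ n := by
        unfold prin
        rw [← map_pow, ht4, map_mul, map_pow]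
      rw [h2, hpe, one_mul, hβ, ← pow_mul]
    rw [mul_pow, h1, inv_pow, ← pow_mul, hm, mul_comm m 4, mul_inv_cancel]
  have hprin : prin t = pr v ^ m := by
    have := idl_torsion hJ
    exact mul_inv_eq_one.1 this
  have hcl : (cl (pr v)⁻¹) ^ m = 1 := by
    have h1 : cl (pr v ^ m) = 1 := by
      rw [← hprin]
      unfold cl prin
      rw [ClassGroup.mk_eq_one_iff]
      exact ⟨⟨(t : K), by rw [coe_toPrincipalIdeal]; exact FractionalIdeal.coe_spanSingleton _ _⟩⟩
    unfold cl at h1 ⊢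
    rw [← map_pow, inv_pow, map_inv, h1, inv_one]
  have hdvd : r ∣ m := orderOf_dvd_of_pow_eq_one hcl
  obtain ⟨c, hc⟩ := hdvd
  refine ⟨c, ?_⟩
  have h1 : r * n = r * (4 * c) := by rw [hm, hc]; ring
  exact Nat.eq_of_mul_eq_mul_left hr0 h1

end Pool.Agent.Work.MP_8efaaa_nt.T
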