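import Mathlib
import Pool.Agent.Work.MP_8efaaa_nt.Defs
import Pool.Agent.Work.MP_8efaaa_nt.Basic
import Pool.Agent.Work.MP_8efaaa_nt.One

/-!
# T/QPt (S-M): rational points on `a w ^ 2 = x ^ 3 + 4 x`

`x > 0` because `x (x ^ 2 + 4) = a w ^ 2 > 0`. Put `t = (x ^ 2 + 4) / (4 x)`, `r = w (4 - x ^ 2) / (8 x ^ 2)`; then
`a r ^ 2 = t ^ 3 - t` and `r ≠ 0` (`x ≠ 2`, `x > 0`). With a common denominator `d > 0` of `t` and `r`: `m = t d`, `n = d`,
`w' = r d ^ 2` are integers and `a w' ^ 2 = m n (m ^ 2 - n ^ 2)`: `isCongruent_of_area` (`Basic.lean`).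
`rat_points`: if `y = 0` then `x = 0` (`x ^ 2 + 4 > 0`); otherwise `x = 2` by the first theorem with `a = 1` and
`not_isCongruent_one` (`One.lean`), and `y ^ 2 = 16`.
-/

set_option autoImplicit false

namespace Pool.Agent.Work.MP_8efaaa_nt.T

theorem congr_of_point {a : ℕ} (ha : 0 < a) {x w : ℚ} (hw : w ≠ 0)
    (h : (a : ℚ) * w ^ 2 = x ^ 3 + 4 * x) (hx : x ≠ 2) : IsCongruent a := by
  have ha0 : (0 : ℚ) < a := by exact_mod_cast ha
  have hx0 : 0 < x := by
    have h1 : 0 < x * (x ^ 2 + 4) := by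
      have : 0 < (a : ℚ) * w ^ 2 := by positivity
      linarith [show x * (x ^ 2 + 4) = x ^ 3 + 4 * x by ring]
    exact (pos_iff_pos_of_mul_pos h1).2 (by positivity)
  obtain ⟨t, ht⟩ : ∃ t : ℚ, t = (x ^ 2 + 4) / (4 * x) := ⟨_, rfl⟩
  obtain ⟨r, hr⟩ : ∃ r : ℚ, r = w * (4 - x ^ 2) / (8 * x ^ 2) := ⟨_, rfl⟩
  have h1 : (a : ℚ) * r ^ 2 = t ^ 3 - t := by
    have e1 : (a : ℚ) * r ^ 2 = ((a : ℚ) * w ^ 2) * (4 - x ^ 2) ^ 2 / (64 * x ^ 4) := by
      rw [hr]
      field_simp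
      ring
    rw [e1, h, ht]
    field_simp
    ring
  have hr0 : r ≠ 0 := by
    have h4 : 4 - x ^ 2 ≠ 0 := by
      intro h0
      have h2 : (x - 2) * (x + 2) = 0 := by linear_combination -h0
      rcases mul_eq_zero.1 h2 with h3 | h3
      · exact hx (by linarith)
      · linarith
    rw [hr]
    exact div_ne_zero (mul_ne_zero hw h4) (by positivity)
  have ht1 : (t.num : ℚ) = t * t.den := (Rat.mul_den_eq_num t).symm
  have hr1 : (r.num : ℚ) = r * r.den := (Rat.mul_den_eq_num r).symm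
  have hd1 : (t.den : ℚ) ≠ 0 := by exact_mod_cast t.den_ne_zero
  have hd2 : (r.den : ℚ) ≠ 0 := by exact_mod_cast r.den_ne_zero
  refine isCongruent_of_area ha (m := t.num * r.den) (n := t.den * r.den)
    (w := r.num * t.den * (t.den * r.den)) ?_ ?_
  · have : r.num ≠ 0 := Rat.num_ne_zero.2 hr0
    have h2 : (t.den : ℤ) ≠ 0 := by exact_mod_cast t.den_ne_zero
    have h3 : (r.den : ℤ) ≠ 0 := by exact_mod_cast r.den_ne_zero
    positivity
  · have h2 : (((t.num * r.den) * (t.den * r.den) * ((t.num * r.den) ^ 2 - (t.den * r.den) ^ 2) : ℤ)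
        : ℚ) = ((a * (r.num * t.den * (t.den * r.den)) ^ 2 : ℤ) : ℚ) := by
      push_cast
      rw [ht1, hr1]
      linear_combination (-(t.den : ℚ) ^ 4 * (r.den : ℚ) ^ 4) * h1
    exact_mod_cast h2

theorem rat_points {x y : ℚ} (h : y ^ 2 = x ^ 3 + 4 * x) :
    (x = 0 ∧ y = 0) ∨ (x = 2 ∧ (y = 4 ∨ y = -4)) := by
  by_cases hy : y = 0
  · left
    rw [hy] at h
    have h1 : x * (x ^ 2 + 4) = 0 := by linear_combination -h
    rcases mul_eq_zero.1 h1 with h2 | h2
    · exact ⟨h2, hy⟩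
    · nlinarith [sq_nonneg x]
  · right
    by_cases hx : x = 2
    · refine ⟨hx, ?_⟩
      rw [hx] at h
      have h1 : (y - 4) * (y + 4) = 0 := by linear_combination h
      rcases mul_eq_zero.1 h1 with h2 | h2
      · left; linarith
      · right; linarith
    · exact absurd (congr_of_point (a := 1) one_pos hy (by rw [Nat.cast_one, one_mul]; exact h) hx)
        not_isCongruent_one

end Pool.Agent.Work.MP_8efaaa_nt.T
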