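import Mathlib
import Pool.Agent.Work.MP_787500_nt.H10_Quad
import Pool.Agent.Work.MP_8efaaa_nt.T.Defs
import Pool.Agent.Work.MP_8efaaa_nt.T.QPt

/-!
# T/EK (M): the points of `y ^ 2 = x ^ 3 + 4 x` over `K` if `a` is not congruent

`c` the conjugation of `K` (`Quad.exists_conj`, `H10_Quad.lean`; every element is `p + q s` with rational `p`, `q`,
`Quad.exists_coords`, fixed by `c` iff `q = 0`, negated iff `p = 0`). `a` is not a square (`a = 7 (mod 8)`).
(T) If `X ∈ ℚ` and `Y = w s`, `w ≠ 0`, `Y ^ 2 = X ^ 3 + 4 X`, then `a w ^ 2 = (-X) ^ 3 + 4 (-X)`, and `congr_of_point`: `-X = 2`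
(impossible: `a w ^ 2 = 16` and `a` is squarefree, `a ≠ 1`) or `a` is congruent.
Case `c x = x`: then `c y = ± y`. `c y = y`: `rat_points`. `c y = - y`, `y ≠ 0`: contradiction by (T); `y = 0`: `x = 0`.
Case `c x ≠ x`: (the point `P - c P`) `m = (y + c y) / (x - c x)`, `X = m ^ 2 - x - c x`, `Y = - (y + m (X - x))`;
`c m = - m`, `c X = X`, `Y ^ 2 = X ^ 3 + 4 X`, `c Y = - Y`. By (T) `Y = 0`, so `X = 0` (`X ∈ ℚ`). So `y = m x` and `- c y = m c x`,
so `x` and `c x` are the roots of `X ^ 2 - m ^ 2 X + 4`: `x * c x = 4`, and `c y = - m c x = - 4 y / x ^ 2`. Then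
`t = (x ^ 2 - 4) / (2 y)` is fixed by `c` (`y ≠ 0`: otherwise `x = 0` or `x ^ 2 = -4`, impossible in `K` resp. with
`c x ≠ x`; note `-1` is not a square in `K`), so rational, and (the point `2 P`) `t ^ 2`, with
`Y2 = -(y + M (t ^ 2 - x))`, `M = (3 x ^ 2 + 4) / (2 y)`, is a point; `Y2` is fixed by `c` (or: `Y2 ^ 2` is rational and
`Y2 ∈ ℚ ∪ ℚ s`, use (T)). `rat_points`: `t ^ 2 = 2` is impossible, so `t = 0`, `x ^ 2 = 4`, `c x = x`.
-/

set_option autoImplicit false

namespace Pool.Agent.Work.MP_8efaaa_nt.T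

open NumberField

universe u

private theorem rat_not_sq {a : ℕ} (h8 : a % 8 = 7) {r : ℚ} (h : r ^ 2 = (a : ℚ)) : False := by
  have h1 : IsSquare (a : ℚ) := ⟨r, by rw [← h, pow_two]⟩
  obtain ⟨m, hm⟩ := Rat.isSquare_natCast_iff.1 h1
  have h2 : m % 8 < 8 := Nat.mod_lt _ (by norm_num)
  have h3 : a % 8 = (m % 8) * (m % 8) % 8 := by rw [hm, Nat.mul_mod]
  interval_cases (m % 8) <;> omega

private theorem rat_sq_ne_two {r : ℚ} (h : r ^ 2 = 2) : False := by
  have h1 : IsSquare ((2 : ℕ) : ℚ) := ⟨r, by rw [← pow_two, h]; norm_num⟩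
  obtain ⟨m, hm⟩ := Rat.isSquare_natCast_iff.1 h1
  have h2 : m < 2 := by nlinarith
  interval_cases m <;> omega

theorem points_K {K : Type u} [Field K] [NumberField K] {a : ℕ} {s : K} (hb : Base K a s)
    (ha : ¬ IsCongruent a) {x y : K} (h : y ^ 2 = x ^ 3 + 4 * x) :
    (x = 0 ∧ y = 0) ∨ (x = 2 ∧ (y = 4 ∨ y = -4)) := by
  have ha0 : 0 < a := by
    have := hb.mod
    omega
  obtain ⟨σ, hσ⟩ := Pool.Agent.Work.MP_787500_nt.Quad.exists_conj hb.dim hb.sq ha0
  have hcoord := fun z : K => Pool.Agent.Work.MP_787500_nt.Quad.exists_coords hb.dim hb.sq ha0 z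
  have hσc : ∀ p q : ℚ, σ ((p : K) + q * s) = (p : K) - q * s := by
    intro p q
    rw [map_add, map_mul, map_ratCast, map_ratCast, hσ]
    ring
  have hσσ : ∀ z, σ (σ z) = z := by
    intro z
    obtain ⟨p, q, rfl⟩ := hcoord z
    rw [hσc]
    have h1 := hσc p (-q)
    push_cast at h1
    have h2 : (p : K) - q * s = (p : K) + -q * s := by ring
    rw [h2, h1]
    ring
  have hfix : ∀ z, σ z = z → ∃ r : ℚ, z = r := by
    intro z hz
    obtain ⟨p, q, rfl⟩ := hcoord z
    rw [hσc] at hz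
    have h1 : ((0 : ℚ) : K) + ((2 * q : ℚ) : K) * s = 0 := by
      push_cast
      linear_combination -hz
    have h2 := (Pool.Agent.Work.MP_787500_nt.Quad.not_rat hb.sq ha0 _ _ h1).2
    have h3 : q = 0 := by linarith
    exact ⟨p, by rw [h3]; simp⟩
  have hneg : ∀ z, σ z = -z → ∃ r : ℚ, z = r * s := by
    intro z hz
    obtain ⟨p, q, rfl⟩ := hcoord z
    rw [hσc] at hz
    have h1 : ((2 * p : ℚ) : K) + ((0 : ℚ) : K) * s = 0 := by
      push_cast
      linear_combination hz
    have h2 := (Pool.Agent.Work.MP_787500_nt.Quad.not_rat hb.sq ha0 _ _ h1).1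
    have h3 : p = 0 := by linarith
    exact ⟨q, by rw [h3]; simp⟩
  have hT : ∀ X w : ℚ, ((w : K) * s) ^ 2 = (X : K) ^ 3 + 4 * X → w = 0 := by
    intro X w hw
    by_contra hw0
    have h1 : (a : ℚ) * w ^ 2 = (-X) ^ 3 + 4 * (-X) := by
      have h2 : (((a : ℚ) * w ^ 2 : ℚ) : K) = (((-X) ^ 3 + 4 * (-X) : ℚ) : K) := by
        push_cast
        have h3 := hb.sq
        linear_combination -hw + (w : K) ^ 2 * h3
      exact_mod_cast h2
    by_cases hX : -X = 2
    · rw [hX] at h1
      refine rat_not_sq hb.mod (r := 4 / w) ?_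
      rw [div_pow, div_eq_iff (pow_ne_zero 2 hw0)]
      linarith
    · exact ha (congr_of_point ha0 hw0 h1 hX)
  -- points with rational first coordinate
  have hrat : ∀ (X : ℚ) (Y : K), Y ^ 2 = (X : K) ^ 3 + 4 * X →
      (X = 0 ∧ Y = 0) ∨ (X = 2 ∧ (Y = 4 ∨ Y = -4)) := by
    intro X Y hY
    have h1 : (σ Y) ^ 2 = Y ^ 2 := by
      rw [← map_pow, hY, map_add, map_mul, map_pow, map_ratCast, map_ofNat]
    rcases sq_eq_sq_iff_eq_or_eq_neg.1 h1 with h2 | h2
    · obtain ⟨r, rfl⟩ := hfix Y h2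
      have h3 : r ^ 2 = X ^ 3 + 4 * X := by exact_mod_cast hY
      rcases rat_points h3 with ⟨h4, h5⟩ | ⟨h4, h5 | h5⟩
      · exact Or.inl ⟨h4, by rw [h5]; simp⟩
      · exact Or.inr ⟨h4, Or.inl (by rw [h5]; norm_num)⟩
      · exact Or.inr ⟨h4, Or.inr (by rw [h5]; norm_num)⟩
    · obtain ⟨w, rfl⟩ := hneg Y h2
      have h3 := hT X w hY
      subst h3
      have h4 : (0 : ℚ) ^ 2 = X ^ 3 + 4 * X := by
        have h5 : (((0 : ℚ) ^ 2 : ℚ) : K) = ((X ^ 3 + 4 * X : ℚ) : K) := by
          push_cast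
          push_cast at hY
          rw [← hY]
          ring
        exact_mod_cast h5
      rcases rat_points h4 with ⟨h6, -⟩ | ⟨-, h6 | h6⟩
      · exact Or.inl ⟨h6, by simp⟩
      · norm_num at h6
      · norm_num at h6
  by_cases hx : σ x = x
  · obtain ⟨X, rfl⟩ := hfix x hx
    rcases hrat X y h with ⟨h1, h2⟩ | ⟨h1, h2⟩
    · exact Or.inl ⟨by rw [h1]; simp, h2⟩
    · exact Or.inr ⟨by rw [h1]; norm_num, h2⟩
  · exfalso
    set x' := σ x with hx'
    set y' := σ y with hy'
    have h' : y' ^ 2 = x' ^ 3 + 4 * x' := by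
      rw [hy', hx', ← map_pow, h, map_add, map_mul, map_pow, map_ofNat]
    have hσx' : σ x' = x := hσσ x
    have hσy' : σ y' = y := hσσ y
    have hd : x - x' ≠ 0 := sub_ne_zero.2 fun h1 => hx h1.symm
    obtain ⟨m, hm⟩ : ∃ m : K, m * (x - x') = y + y' := ⟨(y + y') / (x - x'), div_mul_cancel₀ _ hd⟩
    have hσm : σ m = -m := by
      have h1 := congrArg σ hm
      rw [map_mul, map_sub, map_add, hσx', hσy'] at h1
      have h2 : (σ m + m) * (x' - x) = 0 := by
        have h3 : σ m * (x' - x) = y' + y := h1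
        linear_combination h3 - hm
      rcases mul_eq_zero.1 h2 with h3 | h3
      · exact eq_neg_of_add_eq_zero_left h3
      · exact absurd (sub_eq_zero.1 h3) hx
    set X := m ^ 2 - x - x' with hX
    have hσX : σ X = X := by
      rw [hX, map_sub, map_sub, map_pow, hσm, hσx']
      show (-m) ^ 2 - x' - x = m ^ 2 - x - x'
      ring
    have hline : m * (x' - x) + y = -y' := by linear_combination -hm
    have hcurve : (m * (X - x) + y) ^ 2 = X ^ 3 + 4 * X := by
      have key : (x - x') * (X ^ 3 + 4 * X - (m * (X - x) + y) ^ 2) =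
          (X - x') * (x ^ 3 + 4 * x - y ^ 2) -
            (X - x) * (x' ^ 3 + 4 * x' - (m * (x' - x) + y) ^ 2) := by
        rw [hX]
        ring
      have k2 : (x - x') * (X ^ 3 + 4 * X - (m * (X - x) + y) ^ 2) = 0 := by
        rw [key, hline]
        linear_combination -(X - x') * h + (X - x) * h'
      rcases mul_eq_zero.1 k2 with h3 | h3
      · exact absurd h3 hd
      · linear_combination -h3
    obtain ⟨X0, hX0⟩ := hfix X hσX
    have hY0 : m * (X - x) + y = 0 ∧ X = 0 := by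
      rw [hX0] at hcurve
      have hs1 : σ (m * (X - x) + y) = -(m * (X - x) + y) := by
        rw [map_add, map_mul, map_sub, hσX, hσm]
        show -m * (X - x') + y' = -(m * (X - x) + y)
        linear_combination -hm
      obtain ⟨w, hw⟩ := hneg _ hs1
      rw [← hX0, hw, hX0] at hcurve
      have hw0 := hT X0 w hcurve
      subst hw0
      have hz : m * (X - x) + y = 0 := by rw [hw]; simp
      refine ⟨hz, ?_⟩
      have h4 : (0 : ℚ) ^ 2 = X0 ^ 3 + 4 * X0 := by
        have h5 : (((0 : ℚ) ^ 2 : ℚ) : K) = ((X0 ^ 3 + 4 * X0 : ℚ) : K) := by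
          push_cast
          push_cast at hcurve
          rw [← hcurve]
          ring
        exact_mod_cast h5
      rcases rat_points h4 with ⟨h6, -⟩ | ⟨-, h6 | h6⟩
      · rw [hX0, h6]
        simp
      · norm_num at h6
      · norm_num at h6
    obtain ⟨hY, hXz⟩ := hY0
    rw [hXz] at hY
    have hym : y = m * x := by linear_combination hY
    have hsum : m ^ 2 = x + x' := by linear_combination hXz - hX
    have hx0 : x ≠ 0 := by
      intro h1
      apply hx
      rw [hx', h1, map_zero]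
    have hprod : x * x' = 4 := by
      have h1 : x * (x * x' - 4) = 0 := by
        have h2 : (m * x) ^ 2 = x ^ 3 + 4 * x := by rw [← hym, h]
        linear_combination h2 - x ^ 2 * hsum
      rcases mul_eq_zero.1 h1 with h2 | h2
      · exact absurd h2 hx0
      · exact sub_eq_zero.1 h2
    have hm0 : m ≠ 0 := by
      intro h1
      rw [h1] at hsum
      have h2 : σ x = -x := by
        show x' = -x
        linear_combination -hsum
      obtain ⟨w, hw⟩ := hneg x h2
      have h3 : x' = -x := h2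
      rw [h3, hw] at hprod
      have h4 : (a : ℚ) * w ^ 2 = 4 := by
        have h5 : (((a : ℚ) * w ^ 2 : ℚ) : K) = ((4 : ℚ) : K) := by
          push_cast
          have h6 := hb.sq
          linear_combination hprod + (w : K) ^ 2 * h6
        exact_mod_cast h5
      have hw0 : w ≠ 0 := by
        intro h5
        rw [h5] at h4
        norm_num at h4
      refine rat_not_sq hb.mod (r := 2 / w) ?_
      rw [div_pow, div_eq_iff (pow_ne_zero 2 hw0)]
      linarith
    have hy0 : y ≠ 0 := by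
      rw [hym]
      exact mul_ne_zero hm0 hx0
    obtain ⟨t, ht⟩ : ∃ t : K, t * (2 * y) = x ^ 2 - 4 :=
      ⟨(x ^ 2 - 4) / (2 * y), div_mul_cancel₀ _ (mul_ne_zero two_ne_zero hy0)⟩
    have hy'm : y' = -m * x' := by
      rw [hy', hym, map_mul, hσm]
    have hσt : σ t = t := by
      have h1 := congrArg σ ht
      rw [map_mul, map_mul, map_sub, map_pow, map_ofNat, map_ofNat] at h1
      have h2 : σ t * (2 * y') = x' ^ 2 - 4 := h1
      rw [hy'm] at h2
      rw [hym] at ht
      have h3 : (2 * m * x) * (σ t - t) = 0 := by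
        have h4 : x * x' * (2 * m * x * (σ t - t)) = 0 := by
          have h5 : x * x' * (2 * m * x * σ t) = -(x ^ 2 * (x' ^ 2 - 4)) := by
            linear_combination -(x ^ 2) * h2
          have h6 : x * x' * (2 * m * x * t) = x * x' * (x ^ 2 - 4) := by
            linear_combination (x * x') * ht
          have h7 : x ^ 2 * (x' ^ 2 - 4) = -(x * x' * (x ^ 2 - 4)) := by
            linear_combination (x * x' + 4) * hprod + (x ^ 2 - 4) * hprod
          linear_combination h5 - h6 - h7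
        rcases mul_eq_zero.1 h4 with h5 | h5
        · rw [hprod] at h5
          norm_num at h5
        · exact h5
      rcases mul_eq_zero.1 h3 with h4 | h4
      · exact absurd h4 (mul_ne_zero (mul_ne_zero two_ne_zero hm0) hx0)
      · exact sub_eq_zero.1 h4
    obtain ⟨t0, ht0⟩ := hfix t hσt
    obtain ⟨M, hM⟩ : ∃ M : K, M * (2 * y) = 3 * x ^ 2 + 4 :=
      ⟨(3 * x ^ 2 + 4) / (2 * y), div_mul_cancel₀ _ (mul_ne_zero two_ne_zero hy0)⟩
    have hdup : t ^ 2 = M ^ 2 - 2 * x := by
      have h1 : (2 * y) ^ 2 * (t ^ 2 - (M ^ 2 - 2 * x)) = 0 := by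
        have h2 : (t * (2 * y)) ^ 2 = (x ^ 2 - 4) ^ 2 := by rw [ht]
        have h3 : (M * (2 * y)) ^ 2 = (3 * x ^ 2 + 4) ^ 2 := by rw [hM]
        linear_combination h2 - h3 + 8 * x * h
      rcases mul_eq_zero.1 h1 with h2 | h2
      · exact absurd (pow_eq_zero_iff (by norm_num) |>.1 h2) (mul_ne_zero two_ne_zero hy0)
      · exact sub_eq_zero.1 h2
    have hdc : (M * (t ^ 2 - x) + y) ^ 2 = ((t0 ^ 2 : ℚ) : K) ^ 3 + 4 * ((t0 ^ 2 : ℚ) : K) := by
      push_cast
      rw [← ht0, hdup]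
      linear_combination (M ^ 2 - 3 * x) * hM + h
    rcases hrat (t0 ^ 2) (M * (t ^ 2 - x) + y) hdc with ⟨h1, -⟩ | ⟨h1, -⟩
    · have h2 : t0 = 0 := pow_eq_zero_iff (by norm_num) |>.1 h1
      rw [ht0, h2] at ht
      have h3 : x ^ 2 = 2 ^ 2 := by
        push_cast at ht
        linear_combination -ht
      apply hx
      rcases sq_eq_sq_iff_eq_or_eq_neg.1 h3 with h4 | h4
      · rw [hx', h4, map_ofNat]
      · rw [hx', h4, map_neg, map_ofNat]
    · exact rat_sq_ne_two h1

end Pool.Agent.Work.MP_8efaaa_nt.T
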