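import Mathlib
import Pool.Agent.Work.MP_787500_nt.RS.Isog
import Pool.Agent.Work.MP_8efaaa_nt.T.CDefs

/-!
# T/PsiA (M): the isogeny `ψ : cP → cE` of degree 4

Compose two isogenies of degree two, `RS.exists_isog` (`MP_787500_nt/RS/Isog.lean`), through
`cM : Y ^ 2 = X ^ 3 - 16 X`.
* First: `cP` has `TwoTors P 0 (12 + 8 r) (12 - 8 r)` with `r ^ 2 = 2`, `cM` has `TwoTors M 4 0 (-4)`, and
  `IsogData 0 (12 + 8 r) (12 - 8 r) 4 0 (-4) 4 (1 / 2)`: `(x, y) ↦ (4 + y ^ 2 / (4 x ^ 2), y (16 - x ^ 2) / (8 x ^ 2))`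
  for `x ≠ 0`, and `(0, 0) ↦ 0`. As `y ^ 2 = x ^ 3 - 24 x ^ 2 + 16 x`: `X = (x - 4) ^ 2 / (4 x)`.
* Second: `TwoTors M 0 4 (-4)`, `TwoTors E 0 (2 i) (-2 i)`, `IsogData 0 4 (-4) 0 (2 i) (-2 i) (4 i) (1 / 2)`:
  `(X, Y) ↦ (Y ^ 2 / (4 X ^ 2), Y (-16 - X ^ 2) / (8 X ^ 2))` for `X ≠ 0`, and `(0, 0) ↦ 0`.
* Kernel: `0`, `(0, 0)`, and the points with `X = 0`, i.e. `x = 4`.
* Surjective: `(xe, ye)` with `ye ^ 2 = xe ^ 3 + 4 xe`: take `X` with `X ^ 2 - 4 xe X - 16 = 0` (`IsAlgClosed`; `X ≠ 0`),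
  then `Y` with `Y ^ 2 = 4 xe X ^ 2`; `Y ^ 2 (16 + X ^ 2) ^ 2 / (64 X ^ 4) = ye ^ 2` because
  `(X ^ 2 + 16) ^ 2 = (X ^ 2 - 16) ^ 2 + 64 X ^ 2`, choose the sign of `Y`. Then `(X, Y)`, `X ≠ 0`: `x` with
  `(x - 4) ^ 2 = 4 X x` (`x ≠ 0`, and `x ≠ 4`), `y ^ 2 = x ^ 3 - 24 x ^ 2 + 16 x`, `(y (16 - x ^ 2) / (8 x ^ 2)) ^ 2 = Y ^ 2`,
  sign of `y`.
(You may work with the group structure given by `DecidableEq` from `Classical`, as in `MP_787500_nt/HC/TwE.lean`.)
-/

set_option autoImplicit false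

namespace Pool.Agent.Work.MP_8efaaa_nt.T

open WeierstrassCurve WeierstrassCurve.Affine
open Pool.Agent.Work.MP_787500_nt Pool.Agent.Work.MP_787500_nt.RS

variable {F : Type*} [Field F] [CharZero F]

private theorem same_x {W : WeierstrassCurve.Affine F} {e1 e2 e3 : F} (h : TwoTors W e1 e2 e3)
    {x y y' : F} (hn : W.Nonsingular x y) (hn' : W.Nonsingular x y') : y' = y ∨ y' = -y := by
  have h1 := h.eq_of_nonsingular hn
  have h2 := h.eq_of_nonsingular hn'
  have h3 : (y' - y) * (y' + y) = 0 := by linear_combination h2 - h1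
  rcases mul_eq_zero.1 h3 with h4 | h4
  · exact Or.inl (sub_eq_zero.1 h4)
  · exact Or.inr (eq_neg_of_add_eq_zero_left h4)

private theorem exists_sq [IsAlgClosed F] (a : F) : ∃ z : F, z ^ 2 = a :=
  IsAlgClosed.exists_pow_nat_eq a (by norm_num)

private theorem some_congr {W : WeierstrassCurve.Affine F} {x y x' y' : F}
    (hn : W.Nonsingular x y) (hx : x = x') (hy : y = y') :
    ∃ hn' : W.Nonsingular x' y', (Point.some x y hn : W.Point) = Point.some x' y' hn' := by
  subst hx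
  subst hy
  exact ⟨hn, rfl⟩

private theorem isog_surj [IsAlgClosed F] [DecidableEq F] {W W' : WeierstrassCurve.Affine F}
    {e1 e2 e3 f1 f2 f3 d u : F} (h : TwoTors W e1 e2 e3) (h' : TwoTors W' f1 f2 f3)
    (D : IsogData e1 e2 e3 f1 f2 f3 d u) (φ : W.Point →+ W'.Point)
    (hφ : ∀ (x y : F) (hn : W.Nonsingular x y), x ≠ e1 →
        ∃ hn' : W'.Nonsingular (isogX e1 f1 u x y) (isogY e1 e2 e3 u x y),
          φ (Point.some x y hn) = Point.some _ _ hn') : Function.Surjective φ := by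
  intro Q
  rcases Q with _ | ⟨X, Y, hN⟩
  · exact ⟨0, by rw [map_zero]; rfl⟩
  have hu := D.hu
  have hab : (e1 - e2) * (e1 - e3) ≠ 0 :=
    mul_ne_zero (sub_ne_zero.2 h.h12) (sub_ne_zero.2 h.h31.symm)
  obtain ⟨t, ht⟩ := exists_sq ((((e1 - e2) + (e1 - e3) - (X - f1) / u ^ 2) / 2) ^ 2 -
    (e1 - e2) * (e1 - e3))
  obtain ⟨z, hz⟩ : ∃ z, z = -(((e1 - e2) + (e1 - e3) - (X - f1) / u ^ 2) / 2) + t := ⟨_, rfl⟩
  have hq : z ^ 2 + ((e1 - e2) + (e1 - e3) - (X - f1) / u ^ 2) * z + (e1 - e2) * (e1 - e3) = 0 := by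
    rw [hz]
    linear_combination ht
  have hz0 : z ≠ 0 := by
    intro h0
    rw [h0] at hq
    apply hab
    linear_combination hq
  obtain ⟨y, hy⟩ := exists_sq (z * (z + (e1 - e2)) * (z + (e1 - e3)))
  have hyy : y ^ 2 = (e1 + z - e1) * (e1 + z - e2) * (e1 + z - e3) := by
    rw [hy]
    ring
  have hn : W.Nonsingular (e1 + z) y := h.nonsingular_of_eq hyy
  have hne : e1 + z ≠ e1 := by
    intro h0
    exact hz0 (add_eq_left.1 h0)
  obtain ⟨hn', hφ'⟩ := hφ _ _ hn hne
  have hX : isogX e1 f1 u (e1 + z) y = X := by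
    rw [isogX]
    have e1' : e1 + z - e1 = z := by ring
    have e2' : (z + (e1 - e2)) * (z + (e1 - e3)) = (X - f1) / u ^ 2 * z := by
      linear_combination hq
    rw [e1', hy, mul_assoc, e2']
    field_simp
    ring
  obtain ⟨hn2, h2⟩ := some_congr hn' hX rfl
  rw [h2] at hφ'
  rcases same_x h' hN hn2 with h3 | h3
  · obtain ⟨hn3, h4⟩ := some_congr hn2 rfl h3
    exact ⟨_, by rw [hφ', h4]⟩
  · refine ⟨-Point.some (e1 + z) y hn, ?_⟩
    obtain ⟨hn3, h4⟩ := some_congr hn2 rfl h3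
    rw [map_neg, hφ', h4, Point.neg_some, Point.some.injEq, h'.negY_eq, neg_neg]
    exact ⟨rfl, rfl⟩

private theorem eq_tor {W : WeierstrassCurve.Affine F} {e1 e2 e3 : F} (h : TwoTors W e1 e2 e3)
    {x y : F} (hn : W.Nonsingular x y) (hx : x = e1) : (Point.some x y hn : W.Point) = tor h := by
  subst hx
  have heq := h.eq_of_nonsingular hn
  have hy : y = 0 := by
    have : y ^ 2 = 0 := by rw [heq]; ring
    exact pow_eq_zero_iff (two_ne_zero) |>.1 this
  subst hy
  rfl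

/-- the intermediate curve -/
private def cM (F : Type*) [Field F] : WeierstrassCurve.Affine F := ⟨0, 0, 0, -16, 0⟩

private theorem torP {r : F} (hr : r ^ 2 = 2) : TwoTors (cP F) 0 (12 + 8 * r) (12 - 8 * r) where
  a1 := rfl
  a3 := rfl
  a2 := by
    show (-24 : F) = _
    ring
  a4 := by
    show (16 : F) = _
    linear_combination 64 * hr
  a6 := by
    show (0 : F) = _
    ring
  h12 := by
    intro h
    have h1 : (12 + 8 * r) * (12 - 8 * r) = 16 := by linear_combination -64 * hr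
    rw [← h, zero_mul] at h1
    exact absurd h1.symm (by norm_num)
  h23 := by
    intro h
    have h1 : (16 : F) * r = 0 := by linear_combination h
    rcases mul_eq_zero.1 h1 with h2 | h2
    · exact absurd h2 (by norm_num)
    · rw [h2] at hr
      norm_num at hr
  h31 := by
    intro h
    have h1 : (12 + 8 * r) * (12 - 8 * r) = 16 := by linear_combination -64 * hr
    rw [h, mul_zero] at h1
    exact absurd h1.symm (by norm_num)

private theorem torM : TwoTors (cM F) 4 0 (-4) where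
  a1 := rfl
  a3 := rfl
  a2 := by
    show (0 : F) = _
    ring
  a4 := by
    show (-16 : F) = _
    ring
  a6 := by
    show (0 : F) = _
    ring
  h12 := by norm_num
  h23 := by norm_num
  h31 := by norm_num

private theorem torM' : TwoTors (cM F) 0 4 (-4) where
  a1 := rfl
  a3 := rfl
  a2 := by
    show (0 : F) = _
    ring
  a4 := by
    show (-16 : F) = _
    ring
  a6 := by
    show (0 : F) = _
    ring
  h12 := by norm_num
  h23 := by norm_num
  h31 := by norm_num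

private theorem torE {i : F} (hi : i ^ 2 = -1) : TwoTors (cE F) 0 (2 * i) (-(2 * i)) where
  a1 := rfl
  a3 := rfl
  a2 := by
    show (0 : F) = _
    ring
  a4 := by
    show (4 : F) = _
    linear_combination 4 * hi
  a6 := by
    show (0 : F) = _
    ring
  h12 := by
    intro h
    have h1 : i = 0 := by
      have : (2 : F) * i = 0 := h.symm
      exact (mul_eq_zero.1 this).resolve_left (by norm_num)
    rw [h1] at hi
    norm_num at hi
  h23 := by
    intro h
    have h1 : i = 0 := by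
      have : (4 : F) * i = 0 := by linear_combination h
      exact (mul_eq_zero.1 this).resolve_left (by norm_num)
    rw [h1] at hi
    norm_num at hi
  h31 := by
    intro h
    have h1 : i = 0 := by
      have : (2 : F) * i = 0 := by linear_combination -h
      exact (mul_eq_zero.1 this).resolve_left (by norm_num)
    rw [h1] at hi
    norm_num at hi

private theorem dat1 {r : F} (hr : r ^ 2 = 2) :
    IsogData (0 : F) (12 + 8 * r) (12 - 8 * r) 4 0 (-4) 4 (1 / 2) where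
  hd := by linear_combination 64 * hr
  hu := by norm_num
  h2 := by ring
  h3 := by ring

private theorem dat2 {i : F} (hi : i ^ 2 = -1) :
    IsogData (0 : F) 4 (-4) 0 (2 * i) (-(2 * i)) (4 * i) (1 / 2) where
  hd := by linear_combination 16 * hi
  hu := by norm_num
  h2 := by ring
  h3 := by ring

open scoped Classical in
theorem exists_psi [IsAlgClosed F] {E P : WeierstrassCurve.Affine F} (hE : E = cE F) (hP : P = cP F) :
    ∃ ψ : P.Point →+ E.Point, (∀ R : P.Point, ψ R = 0 ↔ InKer R) ∧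
      (∀ (x y : F) (hn : P.Nonsingular x y), x ≠ 0 → x ≠ 4 →
        ∃ hn' : E.Nonsingular (psX x y) (psY x y),
          ψ (Point.some x y hn) = Point.some (psX x y) (psY x y) hn') ∧
      Function.Surjective ψ := by
  subst hE
  subst hP
  obtain ⟨i, hi⟩ := exists_sq (-1 : F)
  obtain ⟨r, hr⟩ := exists_sq (2 : F)
  obtain ⟨φ₁, h1t, h1⟩ := exists_isog (torP hr) (torM (F := F)) (dat1 hr)
  obtain ⟨φ₂, h2t, h2⟩ := exists_isog (torM' (F := F)) (torE hi) (dat2 hi)
  -- the first isogeny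
  have hA : ∀ (x y : F) (hn : (cP F).Nonsingular x y), x ≠ 0 →
      ∃ hn' : (cM F).Nonsingular ((x - 4) ^ 2 / (4 * x)) (y * (16 - x ^ 2) / (8 * x ^ 2)),
        φ₁ (Point.some x y hn) = Point.some _ _ hn' := by
    intro x y hn hx
    obtain ⟨hn', he⟩ := h1 x y hn hx
    have heq := (torP hr).eq_of_nonsingular hn
    have hX : isogX 0 4 (1 / 2) x y = (x - 4) ^ 2 / (4 * x) := by
      rw [isogX, heq]
      field_simp
      linear_combination (-256) * x * hr
    have hY : isogY 0 (12 + 8 * r) (12 - 8 * r) (1 / 2) x y = y * (16 - x ^ 2) / (8 * x ^ 2) := by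
      rw [isogY]
      field_simp
      linear_combination (-512) * y * x ^ 2 * hr
    obtain ⟨hn2, he2⟩ := some_congr hn' hX hY
    exact ⟨hn2, he.trans he2⟩
  -- the second isogeny
  have hB : ∀ (x y : F) (hn : (cM F).Nonsingular x y), x ≠ 0 →
      ∃ hn' : (cE F).Nonsingular (y ^ 2 / (4 * x ^ 2)) (y * (-16 - x ^ 2) / (8 * x ^ 2)),
        φ₂ (Point.some x y hn) = Point.some _ _ hn' := by
    intro x y hn hx
    obtain ⟨hn', he⟩ := h2 x y hn hx
    have hX : isogX 0 0 (1 / 2) x y = y ^ 2 / (4 * x ^ 2) := by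
      rw [isogX]
      field_simp
      ring
    have hY : isogY 0 4 (-4) (1 / 2) x y = y * (-16 - x ^ 2) / (8 * x ^ 2) := by
      rw [isogY]
      field_simp
      ring
    obtain ⟨hn2, he2⟩ := some_congr hn' hX hY
    exact ⟨hn2, he.trans he2⟩
  have hgen : ∀ (x y : F) (hn : (cP F).Nonsingular x y), x ≠ 0 → x ≠ 4 →
        ∃ hn' : (cE F).Nonsingular (psX x y) (psY x y),
          (φ₂.comp φ₁) (Point.some x y hn) = Point.some (psX x y) (psY x y) hn' := by
    intro x y hn hx hx4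
    obtain ⟨hn1, he1⟩ := hA x y hn hx
    have hx4' : x - 4 ≠ 0 := sub_ne_zero.2 hx4
    have hX0 : (x - 4) ^ 2 / (4 * x) ≠ 0 :=
      div_ne_zero (pow_ne_zero _ hx4') (mul_ne_zero (by norm_num) hx)
    obtain ⟨hn2, he2⟩ := hB _ _ hn1 hX0
    have hX : (y * (16 - x ^ 2) / (8 * x ^ 2)) ^ 2 / (4 * ((x - 4) ^ 2 / (4 * x)) ^ 2) = psX x y := by
      rw [psX]
      field_simp
      ring
    have hY : (y * (16 - x ^ 2) / (8 * x ^ 2)) * (-16 - ((x - 4) ^ 2 / (4 * x)) ^ 2) /
        (8 * ((x - 4) ^ 2 / (4 * x)) ^ 2) = psY x y := by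
      rw [psY]
      field_simp
      ring
    obtain ⟨hn3, he3⟩ := some_congr hn2 hX hY
    refine ⟨hn3, ?_⟩
    rw [AddMonoidHom.comp_apply, he1, he2, he3]
  refine ⟨φ₂.comp φ₁, ?_, hgen, ?_⟩
  · intro R
    rcases R with _ | ⟨x, y, hn⟩
    · exact ⟨fun _ => trivial, fun _ => map_zero _⟩
    · show (φ₂.comp φ₁) (Point.some x y hn) = 0 ↔ (x = 0 ∨ x = 4)
      by_cases hx : x = 0
      · refine ⟨fun _ => Or.inl hx, fun _ => ?_⟩
        rw [AddMonoidHom.comp_apply, eq_tor (torP hr) hn hx, h1t, map_zero]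
      by_cases hx4 : x = 4
      · refine ⟨fun _ => Or.inr hx4, fun _ => ?_⟩
        obtain ⟨hn1, he1⟩ := hA x y hn hx
        have hX0 : (x - 4) ^ 2 / (4 * x) = 0 := by
          rw [hx4, sub_self]
          norm_num
        rw [AddMonoidHom.comp_apply, he1, eq_tor torM' hn1 hX0, h2t]
      · refine ⟨fun h => ?_, fun h => ?_⟩
        · obtain ⟨hn1, he1⟩ := hgen x y hn hx hx4
          rw [he1] at h
          exact absurd h (Point.some_ne_zero _)
        · rcases h with h | h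
          · exact absurd h hx
          · exact absurd h hx4
  · rw [AddMonoidHom.coe_comp]
    exact (isog_surj torM' (torE hi) (dat2 hi) φ₂ h2).comp
      (isog_surj (torP hr) torM (dat1 hr) φ₁ h1)

end Pool.Agent.Work.MP_8efaaa_nt.T
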