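import Mathlib
import Pool.Agent.Work.MP_8efaaa_nt.T.CDefs

/-!
# T/PsiB (M): translation of `gP` by the points of the kernel

`subst hP`. `κ = 0`: `x' = x`, `y' = y`. `κ = (0, 0)` (`InKer` and the equation give `y = 0` if `x = 0`): the sum is
`(16 / x, - 16 y / x ^ 2)` and `gP` changes its sign. `κ = (4, t)`, `t ^ 2 = - 256` (from the equation): with
`m = (y - t) / (x - 4)`, `x' = m ^ 2 + 20 - x`, `y' = -(y + m (x' - x))`; then `gP x' y' = (- t / 16) * gP x y`
(clear denominators, use `y ^ 2 = x ^ 3 - 24 x ^ 2 + 16 x` and `t ^ 2 = - 256`; checked numerically).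
`x' ≠ 0`, `x' ≠ 4`: otherwise the sum is in the kernel; directly: `x' = 0` or `4` gives, with the same equations, a
contradiction with `x ≠ 0`, `x ≠ 4` (e.g. `x' (x - 4) ^ 2 = (…) x` with an explicit nonzero factor; or: the formulas
for the sum of the point `(x', y')` and `- κ`).
`Point.add_some`, `slope_of_X_ne`, `addX`, `addY`, `negY` (`Mathlib/AlgebraicGeometry/EllipticCurve/Affine`).
-/

set_option autoImplicit false

namespace Pool.Agent.Work.MP_8efaaa_nt.T

open WeierstrassCurve WeierstrassCurve.Affine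

variable {F : Type*} [Field F] [CharZero F]

private theorem f4 : (4 : F) ≠ 0 := by norm_num

private theorem gP_key {x y t : F} (hC : y ^ 2 = x ^ 3 - 24 * x ^ 2 + 16 * x)
    (ht : t ^ 2 = -256) {N D : F} (hN : N = 4 * x ^ 2 - 160 * x + 64 - 2 * t * y)
    (hD : D = x - 4) :
    16 * x * (-(y * D ^ 3 + (y - t) * (N - x * D ^ 2)) * (N - 4 * D ^ 2) -
      4 * D * N * (N + 4 * D ^ 2)) +
      t * N * (N - 4 * D ^ 2) * (y * D - 4 * x * (x + 4)) = 0 := by
  subst hN
  subst hD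
  linear_combination ((-8) * x ^ 3 * t ^ 2 + (-16) * x ^ 2 * t ^ 3 + (352) * x ^ 2 * t ^ 2
       + (-8192) * x ^ 2 * t ^ 1 + (4) * x ^ 1 * y ^ 1 * t ^ 3
       + (-64) * x ^ 1 * y ^ 1 * t ^ 2 + (-1408) * x ^ 1 * t ^ 2 + (-16) * y ^ 1 * t ^ 3
       + (512) * t ^ 2) * hC +
    ((-8) * x ^ 6 + (-16) * x ^ 5 * t ^ 1 + (544) * x ^ 5 + (4) * x ^ 4 * y ^ 1 * t ^ 1
       + (384) * x ^ 4 * t ^ 1 + (-9984) * x ^ 4 + (-112) * x ^ 3 * y ^ 1 * t ^ 1
       + (-1024) * x ^ 3 * y ^ 1 + (-256) * x ^ 3 * t ^ 1 + (39936) * x ^ 3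
       + (448) * x ^ 2 * y ^ 1 * t ^ 1 + (-34816) * x ^ 2
       + (-256) * x ^ 1 * y ^ 1 * t ^ 1 + (8192) * x ^ 1) * ht

private theorem gP_four {x y t x' y' : F} (hC : y ^ 2 = x ^ 3 - 24 * x ^ 2 + 16 * x)
    (ht : t ^ 2 = -256) (h0 : x ≠ 0) (h4 : x ≠ 4)
    (hx' : x' = ((y - t) / (x - 4)) ^ 2 + 24 - x - 4)
    (hy' : y' = -((y - t) / (x - 4) * (x' - x) + y)) :
    x' ≠ 0 ∧ x' ≠ 4 ∧ gP x' y' = -t / 16 * gP x y := by
  have hD0 : x - 4 ≠ 0 := sub_ne_zero.2 h4
  have e1 : x' * (x - 4) ^ 2 = 4 * x ^ 2 - 160 * x + 64 - 2 * t * y := by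
    rw [hx']
    have h1 : (((y - t) / (x - 4)) ^ 2 + 24 - x - 4) * (x - 4) ^ 2 =
        (y - t) ^ 2 + (20 - x) * (x - 4) ^ 2 := by
      field_simp
      ring
    rw [h1]
    linear_combination hC + ht
  have e2 : y' * (x - 4) ^ 3 = -(y * (x - 4) ^ 3 +
      (y - t) * ((4 * x ^ 2 - 160 * x + 64 - 2 * t * y) - x * (x - 4) ^ 2)) := by
    rw [hy', ← e1]
    have h1 : -((y - t) / (x - 4) * (x' - x) + y) * (x - 4) ^ 3 =
        -((y - t) * (x' - x) * (x - 4) ^ 2 + y * (x - 4) ^ 3) := by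
      field_simp
    rw [h1]
    ring
  have hx0 : x' ≠ 0 := by
    intro h
    rw [h, zero_mul] at e1
    have h1 : (4 : F) * (x - 4) ^ 4 = 0 := by
      have h2 : t * y = 2 * x ^ 2 - 80 * x + 32 := by
        have h3 : (2 : F) * (t * y - (2 * x ^ 2 - 80 * x + 32)) = 0 := by linear_combination e1
        have h5 := (mul_eq_zero.1 h3).resolve_left two_ne_zero
        linear_combination h5
      linear_combination -256 * hC + y ^ 2 * ht - (t * y + (2 * x ^ 2 - 80 * x + 32)) * h2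
    rcases mul_eq_zero.1 h1 with h2 | h2
    · exact (f4 (F := F)) h2
    · exact hD0 (pow_eq_zero_iff (by norm_num) |>.1 h2)
  have hx4 : x' ≠ 4 := by
    intro h
    rw [h] at e1
    have h2 : t * y = -64 * x := by
      have h3 : (2 : F) * (t * y + 64 * x) = 0 := by linear_combination e1
      have h5 := (mul_eq_zero.1 h3).resolve_left two_ne_zero
      linear_combination h5
    have h1 : (256 : F) * (x * (x - 4) ^ 2) = 0 := by
      linear_combination -256 * hC + y ^ 2 * ht - (t * y - 64 * x) * h2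
    have h6 : (256 : F) ≠ 0 := by norm_num
    rcases mul_eq_zero.1 h1 with h3 | h3
    · exact h6 h3
    · rcases mul_eq_zero.1 h3 with h7 | h7
      · exact h0 h7
      · exact hD0 (pow_eq_zero_iff (by norm_num) |>.1 h7)
  refine ⟨hx0, hx4, ?_⟩
  have hx4' : x' - 4 ≠ 0 := sub_ne_zero.2 hx4
  have k := gP_key hC ht (N := x' * (x - 4) ^ 2) (D := x - 4) e1 rfl
  have k2 : -(y * (x - 4) ^ 3 + (y - t) * (x' * (x - 4) ^ 2 - x * (x - 4) ^ 2)) =
      y' * (x - 4) ^ 3 := by
    rw [e2, e1]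
  rw [k2] at k
  have k3 : 16 * x * (x - 4) * (y' * (x' - 4) - 4 * x' * (x' + 4)) +
      t * x' * (x' - 4) * (y * (x - 4) - 4 * x * (x + 4)) = 0 := by
    have h1 : (x - 4) ^ 4 * (16 * x * (x - 4) * (y' * (x' - 4) - 4 * x' * (x' + 4)) +
      t * x' * (x' - 4) * (y * (x - 4) - 4 * x * (x + 4))) = 0 := by
      linear_combination k
    exact (mul_eq_zero.1 h1).resolve_left (pow_ne_zero 4 hD0)
  unfold gP
  have g1 : y' / (4 * x') - (x' + 4) / (x' - 4) =
      (y' * (x' - 4) - 4 * x' * (x' + 4)) / (4 * x' * (x' - 4)) := by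
    field_simp
  have g2 : y / (4 * x) - (x + 4) / (x - 4) =
      (y * (x - 4) - 4 * x * (x + 4)) / (4 * x * (x - 4)) := by
    field_simp
  rw [g1, g2]
  have hd1 : 4 * x' * (x' - 4) ≠ 0 := mul_ne_zero (mul_ne_zero (f4 (F := F)) hx0) hx4'
  have hd2 : 4 * x * (x - 4) ≠ 0 := mul_ne_zero (mul_ne_zero (f4 (F := F)) h0) hD0
  have h16 : (16 : F) ≠ 0 := by norm_num
  rw [div_mul_div_comm, div_eq_div_iff hd1 (mul_ne_zero h16 hd2)]
  linear_combination 4 * k3

private theorem gP_zero {x y x' y' : F} (hC : y ^ 2 = x ^ 3 - 24 * x ^ 2 + 16 * x)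
    (h0 : x ≠ 0) (h4 : x ≠ 4)
    (hx' : x' = (y / x) ^ 2 + 24 - x)
    (hy' : y' = -(y / x * (x' - x) + y)) :
    x' ≠ 0 ∧ x' ≠ 4 ∧ gP x' y' = -1 * gP x y := by
  have hD0 : x - 4 ≠ 0 := sub_ne_zero.2 h4
  have h16 : (16 : F) ≠ 0 := by norm_num
  have e1 : x' = 16 / x := by
    rw [hx', eq_div_iff h0]
    have h1 : ((y / x) ^ 2 + 24 - x) * x = y ^ 2 / x + 24 * x - x ^ 2 := by
      field_simp
    rw [h1, hC]
    field_simp
    ring
  have e2 : y' = -(16 * y) / x ^ 2 := by
    rw [hy', e1]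
    field_simp
    ring
  have hx0 : x' ≠ 0 := by
    rw [e1]
    exact div_ne_zero h16 h0
  have hx4 : x' ≠ 4 := by
    rw [e1]
    intro h
    rw [div_eq_iff h0] at h
    apply h4
    have h1 : (4 : F) * (x - 4) = 0 := by linear_combination -h
    have h2 := (mul_eq_zero.1 h1).resolve_left (f4 (F := F))
    linear_combination h2
  refine ⟨hx0, hx4, ?_⟩
  have hx4' : x' - 4 ≠ 0 := sub_ne_zero.2 hx4
  unfold gP
  have g1 : y' / (4 * x') = -(y / (4 * x)) := by
    rw [e1, e2]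
    field_simp
  have g2 : (x' + 4) / (x' - 4) = -((x + 4) / (x - 4)) := by
    rw [← neg_div, div_eq_div_iff hx4' hD0, e1]
    field_simp
    ring
  rw [g1, g2]
  ring

open scoped Classical in
theorem gP_add {P : WeierstrassCurve.Affine F} (hP : P = cP F) {x y : F} (hn : P.Nonsingular x y)
    (h0 : x ≠ 0) (h4 : x ≠ 4) {κ : P.Point} (hκ : InKer κ) :
    ∃ (x' y' : F) (hn' : P.Nonsingular x' y'), Point.some x y hn + κ = Point.some x' y' hn' ∧
      x' ≠ 0 ∧ x' ≠ 4 ∧ gP x' y' = eP κ * gP x y := by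
  subst hP
  have hC : y ^ 2 = x ^ 3 - 24 * x ^ 2 + 16 * x := by
    have h := (equation_iff x y).1 hn.1
    simp only [cP] at h
    linear_combination h
  cases κ with
  | zero =>
    refine ⟨x, y, hn, ?_, h0, h4, ?_⟩
    · exact add_zero _
    · show gP x y = 1 * gP x y
      rw [one_mul]
  | some u t hu =>
    have hK : t ^ 2 = u ^ 3 - 24 * u ^ 2 + 16 * u := by
      have h := (equation_iff u t).1 hu.1
      simp only [cP] at h
      linear_combination h
    have hku : u = 0 ∨ u = 4 := hκ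
    have hxu : x ≠ u := by
      rcases hku with h | h
      · rw [h]; exact h0
      · rw [h]; exact h4
    have hadd := Point.add_of_X_ne (h₁ := hn) (h₂ := hu) hxu
    refine ⟨_, _, _, hadd, ?_⟩
    have hxe : (cP F).addX x u ((cP F).slope x u y t) =
        ((y - t) / (x - u)) ^ 2 + 24 - x - u := by
      rw [slope_of_X_ne hxu]
      simp only [addX, cP]
      ring
    have hye : (cP F).addY x u y ((cP F).slope x u y t) =
        -((y - t) / (x - u) * ((cP F).addX x u ((cP F).slope x u y t) - x) + y) := by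
      simp only [addY, negY, negAddY]
      rw [slope_of_X_ne hxu]
      simp only [cP]
      ring
    rcases hku with h | h
    · subst h
      have ht : t = 0 := by
        have h1 : t ^ 2 = 0 := by rw [hK]; ring
        exact pow_eq_zero_iff (by norm_num) |>.1 h1
      subst ht
      have h04 : ¬ ((0 : F) = 4) := fun h => (f4 (F := F)) h.symm
      have he : eP (Point.some (0 : F) 0 hu) = -1 := by
        simp only [eP]
        rw [if_neg h04]
      rw [he]
      apply gP_zero hC h0 h4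
      · rw [hxe]
        simp only [sub_zero]
      · rw [hye]
        simp only [sub_zero]
    · subst h
      have ht : t ^ 2 = -256 := by rw [hK]; ring
      have he : eP (Point.some (4 : F) t hu) = -t / 16 := by
        simp only [eP, if_true]
      rw [he]
      exact gP_four hC ht h0 h4 hxe hye

end Pool.Agent.Work.MP_8efaaa_nt.T
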