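import Mathlib
import Pool.Agent.Work.MP_8efaaa_nt.T.CDefs

/-!
# T/PsiC (S-M): the pairing on the kernel is multiplicative; the fourth power of `gP`

The points of the kernel are `0`, `(0, 0)`, `(4, t)` with `t ^ 2 = -256` (two values `± t`). Sums: `(0, 0) + (0, 0) = 0`;
`(0, 0) + (4, t) = (4, -t)`; `(4, t) + (4, -t) = 0`; `(4, t) + (4, t) = (0, 0)` (slope
`(3 * 16 - 48 * 4 + 16) / (2 t) = - 64 / t`, square `- 16`, `x = - 16 + 24 - 8 = 0`). `eP` is `1`, `-1`, `- t / 16`, and
`(t / 16) ^ 2 = -1`.
`fE_psi`: `psY - 2 psX = - y (16 - x ^ 2) (256 x ^ 2 + (x - 4) ^ 4 + 8 y (16 - x ^ 2)) / (64 x ^ 2 (x - 4) ^ 4)` and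
`x (256 x ^ 2 + (x - 4) ^ 4 + 8 y (16 - x ^ 2)) = ((x - 4) y - 4 x (x + 4)) ^ 2` by the equation; so
`fE = (((x - 4) y - 4 x (x + 4)) / (4 x (x - 4))) ^ 4` if `y (16 - x ^ 2) ≠ 0` (hypothesis `psX x y ≠ 0`).
-/

set_option autoImplicit false

namespace Pool.Agent.Work.MP_8efaaa_nt.T

open WeierstrassCurve WeierstrassCurve.Affine

variable {F : Type*} [Field F] [CharZero F]

private theorem cP_eq {x y : F} (h : (cP F).Nonsingular x y) :
    y ^ 2 = x ^ 3 - 24 * x ^ 2 + 16 * x := by
  have h1 := (equation_iff (W := cP F) x y).1 h.1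
  simp only [cP] at h1
  linear_combination h1

private theorem cP_negY (x y : F) : (cP F).negY x y = -y := by
  simp only [negY, cP]
  ring

private theorem cP_addX (x₁ x₂ ℓ : F) : (cP F).addX x₁ x₂ ℓ = ℓ ^ 2 + 24 - x₁ - x₂ := by
  simp only [addX, cP]
  ring

private theorem cP_addY (x₁ x₂ y₁ ℓ : F) : (cP F).addY x₁ x₂ y₁ ℓ =
    -(ℓ * ((cP F).addX x₁ x₂ ℓ - x₁) + y₁) := by
  rw [addY, cP_negY, negAddY]

private theorem sq_four {x y : F} (h : (cP F).Nonsingular x y) (hx : x = 4) : y ^ 2 = -256 := by
  rw [cP_eq h, hx]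
  norm_num

private theorem sq_zero {x y : F} (h : (cP F).Nonsingular x y) (hx : x = 0) : y = 0 := by
  have := cP_eq h
  rw [hx] at this
  apply pow_eq_zero_iff (n := 2) (by norm_num) |>.1
  rw [this]
  ring

open scoped Classical in
theorem inKer_add {P : WeierstrassCurve.Affine F} (hP : P = cP F) {κ κ' : P.Point} (h : InKer κ)
    (h' : InKer κ') : InKer (κ + κ') ∧ eP (κ + κ') = eP κ * eP κ' := by
  subst hP
  have h40 : (4 : F) ≠ 0 := by norm_num
  rcases κ with _ | ⟨x, y, hn⟩
  · have e : (Point.zero : (cP F).Point) + κ' = κ' := zero_add κ'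
    have e2 : eP (Point.zero : (cP F).Point) = 1 := rfl
    rw [e, e2, one_mul]
    exact ⟨h', rfl⟩
  rcases κ' with _ | ⟨x', y', hn'⟩
  · have e : (Point.some x y hn : (cP F).Point) + Point.zero = Point.some x y hn := add_zero _
    have e2 : eP (Point.zero : (cP F).Point) = 1 := rfl
    rw [e, e2, mul_one]
    exact ⟨h, rfl⟩
  have hx : x = 0 ∨ x = 4 := h
  have hx' : x' = 0 ∨ x' = 4 := h'
  have e1 : eP (Point.some x y hn) = if x = 4 then -y / 16 else -1 := rfl
  have e2 : eP (Point.some x' y' hn') = if x' = 4 then -y' / 16 else -1 := rfl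
  rw [e1, e2]
  by_cases hxy : x = x' ∧ y = (cP F).negY x' y'
  · rw [Point.add_of_Y_eq hxy.1 hxy.2]
    refine ⟨trivial, ?_⟩
    show (1 : F) = _
    rw [cP_negY] at hxy
    obtain ⟨rfl, rfl⟩ := hxy
    rcases hx with hx | hx
    · have hx4 : ¬ x = 4 := by
        rw [hx]
        exact h40.symm
      rw [if_neg hx4, if_neg hx4]
      norm_num
    · rw [if_pos hx, if_pos hx]
      have := sq_four hn' hx
      linear_combination (1 / 256 : F) * this
  · rw [Point.add_some hxy]
    show ((cP F).addX x x' ((cP F).slope x x' y y') = 0 ∨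
      (cP F).addX x x' ((cP F).slope x x' y y') = 4) ∧
      (if (cP F).addX x x' ((cP F).slope x x' y y') = 4 then
        -((cP F).addY x x' y ((cP F).slope x x' y y')) / 16 else -1) = _
    rw [cP_addY]
    rcases hx with hx | hx
    · have hy := sq_zero hn hx
      rcases hx' with hx' | hx'
      · have hy' := sq_zero hn' hx'
        exact absurd ⟨hx.trans hx'.symm, by rw [cP_negY, hy, hy', neg_zero]⟩ hxy
      · have hs := sq_four hn' hx'
        have hsl : (cP F).slope x x' y y' = y' / 4 := by
          rw [slope_of_X_ne (by rw [hx, hx']; exact h40.symm), hx, hx', hy]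
          field_simp
          ring
        have hX : (cP F).addX x x' ((cP F).slope x x' y y') = 4 := by
          rw [cP_addX, hsl, hx, hx']
          linear_combination (1 / 16 : F) * hs
        rw [hX, if_pos rfl, if_neg (by rw [hx]; exact h40.symm), if_pos hx', hsl, hx, hy]
        refine ⟨Or.inr rfl, ?_⟩
        field_simp
        ring
    · have hs := sq_four hn hx
      rcases hx' with hx' | hx'
      · have hy' := sq_zero hn' hx'
        have hsl : (cP F).slope x x' y y' = y / 4 := by
          rw [slope_of_X_ne (by rw [hx, hx']; exact h40), hx, hx', hy']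
          field_simp
          ring
        have hX : (cP F).addX x x' ((cP F).slope x x' y y') = 4 := by
          rw [cP_addX, hsl, hx, hx']
          linear_combination (1 / 16 : F) * hs
        rw [hX, if_pos rfl, if_pos hx, if_neg (by rw [hx']; exact h40.symm), hsl, hx]
        refine ⟨Or.inr rfl, ?_⟩
        field_simp
        ring
      · have hs' := sq_four hn' hx'
        have hy0 : y ≠ 0 := by
          rintro rfl
          norm_num at hs
        have hyy : y = y' := by
          have h1 : (y - y') * (y + y') = 0 := by linear_combination hs - hs'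
          rcases mul_eq_zero.1 h1 with h2 | h2
          · exact sub_eq_zero.1 h2
          · exact absurd ⟨hx.trans hx'.symm, by rw [cP_negY]; linear_combination h2⟩ hxy
        subst hyy
        have hsl : (cP F).slope x x' y y = -64 / y := by
          rw [slope_of_Y_ne (hx.trans hx'.symm) (by
            rw [cP_negY]
            intro h1
            apply hy0
            have : 2 * y = 0 := by linear_combination h1
            simpa using this), cP_negY, hx]
          simp only [cP]
          field_simp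
          ring
        have hX : (cP F).addX x x' ((cP F).slope x x' y y) = 0 := by
          rw [cP_addX, hsl, hx, hx']
          have : (-64 / y) ^ 2 = -16 := by
            rw [div_pow, hs]
            norm_num
          rw [this]
          norm_num
        rw [hX, if_neg h40.symm, if_pos hx, if_pos hx']
        refine ⟨Or.inl rfl, ?_⟩
        linear_combination -(1 / 256 : F) * hs

theorem eP_ne {P : WeierstrassCurve.Affine F} (hP : P = cP F) {κ : P.Point} (h : InKer κ) :
    eP κ ≠ 0 ∧ eP κ ^ 4 = 1 := by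
  subst hP
  classical
  have h1 : eP κ ^ 4 = 1 := by
    rcases κ with _ | ⟨x, y, hn⟩
    · show (1 : F) ^ 4 = 1
      exact one_pow 4
    · have e1 : eP (Point.some x y hn) = if x = 4 then -y / 16 else -1 := rfl
      rw [e1]
      by_cases hx : x = 4
      · rw [if_pos hx]
        have hs := sq_four hn hx
        have : (-y / 16) ^ 4 = (y ^ 2) ^ 2 / 65536 := by ring
        rw [this, hs]
        norm_num
      · rw [if_neg hx]
        norm_num
  refine ⟨fun h0 => ?_, h1⟩
  rw [h0] at h1
  norm_num at h1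

theorem fE_psi {x y : F} (h : y ^ 2 = x ^ 3 - 24 * x ^ 2 + 16 * x) (h0 : x ≠ 0) (h4 : x ≠ 4)
    (h1 : psX x y ≠ 0) : fE (psX x y) (psY x y) = gP x y ^ 4 := by
  have h4' : x - 4 ≠ 0 := sub_ne_zero.2 h4
  have hy : y * (16 - x ^ 2) ≠ 0 := by
    intro h2
    apply h1
    unfold psX
    rw [h2]
    simp
  have hy1 : y ≠ 0 := left_ne_zero_of_mul hy
  have hy2 : 16 - x ^ 2 ≠ 0 := right_ne_zero_of_mul hy
  have key : x * (256 * x ^ 2 + (x - 4) ^ 4 + 8 * (y * (16 - x ^ 2))) =
      ((x - 4) * y - 4 * x * (x + 4)) ^ 2 := by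
    linear_combination (-(x - 4) ^ 2) * h
  have e1 : psY x y - 2 * psX x y = -(y * (16 - x ^ 2)) *
      (256 * x ^ 2 + (x - 4) ^ 4 + 8 * (y * (16 - x ^ 2))) / (64 * x ^ 2 * (x - 4) ^ 4) := by
    unfold psX psY
    field_simp
    ring
  have e2 : (256 * x ^ 2 + (x - 4) ^ 4 + 8 * (y * (16 - x ^ 2))) =
      ((x - 4) * y - 4 * x * (x + 4)) ^ 2 / x := by
    rw [eq_div_iff h0, ← key]
    ring
  have e3 : gP x y = ((x - 4) * y - 4 * x * (x + 4)) / (4 * x * (x - 4)) := by
    unfold gP
    field_simp
  have e4 : fE (psX x y) (psY x y) = (psY x y - 2 * psX x y) ^ 2 / psX x y := rfl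
  rw [e4, e1, e2, e3]
  unfold psX
  generalize (x - 4) * y - 4 * x * (x + 4) = B
  field_simp
  ring

end Pool.Agent.Work.MP_8efaaa_nt.T
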