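import Mathlib
import Pool.Agent.Work.MP_8efaaa_nt.T.CDefs
import Pool.Agent.Work.MP_8efaaa_nt.T.PsiA
import Pool.Agent.Work.MP_8efaaa_nt.T.PsiB
import Pool.Agent.Work.MP_8efaaa_nt.T.PsiC

/-!
# T/SumZ (M): a Galois stable family of points with sum zero

`F = AlgebraicClosure K`. Let `E = (cE K)⁄F`, `P = (cP K)⁄F` (equal to `cE F`, `cP F`: structure equality, `map_ofNat`
etc.), `ψ` from `exists_psi`. Choose `R j : P.Point` with `ψ (R j) = some (x j) (y j)`. `R j` is not in the kernel
(`ψ (R j) ≠ 0`), so `R j = some (a j) (b j)` with `a j ≠ 0, 4`, and `psX = x j ≠ 0`. Put `G = ∏ gP (a j) (b j)`;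
`G ^ 4 = ∏ fE (x j) (y j)` (`fE_psi`).
For `σ`, with `m = Point.map σ` on both groups: `m (R j) = R (π j) + κ j` with `κ j` in the kernel: `ψ (m (R j)) =
m (ψ (R j))` (the formulas `psX`, `psY`, `InKer` are compatible with `σ`), `= some (x (π j)) (y (π j)) = ψ (R (π j))`.
By `gP_add`: `σ (gP (a j) (b j)) = gP (σ (a j)) (σ (b j)) = eP (κ j) * gP (a (π j)) (b (π j))`. So
`σ G = eP (∑ κ j) * G` (`inKer_add`, reindex by `π`).
Let `ρ = ∑ R j`; `ψ ρ = 0`, so `ρ` is in the kernel, and `m ρ = ρ + ∑ κ j`, `σ (eP ρ) = eP (m ρ) = eP ρ * eP (∑ κ j)`.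
So `G / eP ρ` is fixed by all `σ`, hence in `K` (`AlgebraicClosure K` is Galois over `K`, `CharZero`; e.g.
`InfiniteGalois.fixedField_bot` or `IsGalois.mem_bot_iff_fixed`, or the argument of `MP_787500_nt/HC`), and its fourth
power is `G ^ 4` (`eP_ne`).
-/

set_option autoImplicit false

namespace Pool.Agent.Work.MP_8efaaa_nt.T

open WeierstrassCurve WeierstrassCurve.Affine

variable {K : Type*} [Field K] [CharZero K]

/-- an element fixed by all automorphisms -/
theorem exists_of_fixed {z : AlgebraicClosure K}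
    (h : ∀ σ : AlgebraicClosure K ≃ₐ[K] AlgebraicClosure K, σ z = z) :
    ∃ k : K, algebraMap K (AlgebraicClosure K) k = z := by
  have : IsGalois K (AlgebraicClosure K) := inferInstance
  exact (InfiniteGalois.mem_range_algebraMap_iff_fixed (k := K) (K := AlgebraicClosure K) z).2 h

omit [CharZero K] in
open scoped Classical in
private theorem map_aux (C : WeierstrassCurve.Affine K) {W : WeierstrassCurve.Affine (AlgebraicClosure K)}
    (hW : W = C⁄(AlgebraicClosure K)) (σ : AlgebraicClosure K ≃ₐ[K] AlgebraicClosure K) :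
    ∃ m : W.Point →+ W.Point, ∀ (x y : AlgebraicClosure K) (h : W.Nonsingular x y),
      ∃ h' : W.Nonsingular (σ x) (σ y), m (Point.some x y h) = Point.some (σ x) (σ y) h' := by
  subst hW
  exact ⟨Point.map (W' := C) (σ : AlgebraicClosure K →ₐ[K] AlgebraicClosure K),
    fun x y h => ⟨_, rfl⟩⟩

omit [CharZero K] in
private theorem cE_base : cE (AlgebraicClosure K) = (cE K)⁄(AlgebraicClosure K) := by
  ext <;> simp [cE, WeierstrassCurve.Affine.baseChange, WeierstrassCurve.baseChange,
    WeierstrassCurve.map, map_ofNat]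

omit [CharZero K] in
private theorem cP_base : cP (AlgebraicClosure K) = (cP K)⁄(AlgebraicClosure K) := by
  ext <;> simp [cP, WeierstrassCurve.Affine.baseChange, WeierstrassCurve.baseChange,
    WeierstrassCurve.map, map_ofNat]

open scoped Classical in
private theorem ker_sum {F : Type*} [Field F] [CharZero F] {ι : Type*} (s : Finset ι)
    (κ : ι → (cP F).Point) (h : ∀ j, InKer (κ j)) :
    InKer (∑ j ∈ s, κ j) ∧ eP (∑ j ∈ s, κ j) = ∏ j ∈ s, eP (κ j) := by
  induction s using Finset.induction_on with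
  | empty =>
    simp only [Finset.sum_empty, Finset.prod_empty]
    exact ⟨trivial, rfl⟩
  | insert j s hj ih =>
    rw [Finset.sum_insert hj, Finset.prod_insert hj, ← ih.2]
    exact inKer_add rfl (h j) ih.1

private theorem eP_some {F : Type*} [Field F] {x y : F} (h : (cP F).Nonsingular x y) (h4 : x = 4) :
    eP (Point.some x y h) = -y / 16 := by
  classical
  show (@ite _ (x = 4) _ (-y / 16) (-1)) = _
  exact if_pos h4

private theorem eP_some' {F : Type*} [Field F] {x y : F} (h : (cP F).Nonsingular x y)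
    (h4 : x ≠ 4) : eP (Point.some x y h) = -1 := by
  classical
  show (@ite _ (x = 4) _ (-y / 16) (-1)) = _
  exact if_neg h4

open scoped Classical in
theorem sum_zero {ι : Type*} [Fintype ι] {x y : ι → AlgebraicClosure K}
    (hn : ∀ j, (cE (AlgebraicClosure K)).Nonsingular (x j) (y j)) (hx : ∀ j, x j ≠ 0)
    (hσ : ∀ σ : AlgebraicClosure K ≃ₐ[K] AlgebraicClosure K, ∃ π : Equiv.Perm ι,
      ∀ j, σ (x j) = x (π j) ∧ σ (y j) = y (π j))
    (hsum : ∑ j, Point.some (x j) (y j) (hn j) = 0) :
    ∃ z : K, algebraMap K (AlgebraicClosure K) z ^ 4 = ∏ j, fE (x j) (y j) := by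
  obtain ⟨ψ, hker, hval, hsurj⟩ :=
    exists_psi (F := AlgebraicClosure K) (E := cE (AlgebraicClosure K)) (P := cP _) rfl rfl
  have hex : ∀ j, ∃ (a b : AlgebraicClosure K) (h : (cP (AlgebraicClosure K)).Nonsingular a b),
      a ≠ 0 ∧ a ≠ 4 ∧ ψ (Point.some a b h) = Point.some (x j) (y j) (hn j) := by
    intro j
    obtain ⟨R, hR⟩ := hsurj (Point.some (x j) (y j) (hn j))
    have hR0 : ¬ InKer R := by
      intro h
      have h1 := (hker R).2 h
      rw [h1] at hR
      exact Point.some_ne_zero (hn j) hR.symm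
    rcases R with _ | ⟨a, b, h⟩
    · exact absurd trivial hR0
    · exact ⟨a, b, h, fun h0 => hR0 (Or.inl h0), fun h4 => hR0 (Or.inr h4), hR⟩
  choose a b hab ha0 ha4 hψ using hex
  have hps : ∀ j, psX (a j) (b j) = x j ∧ psY (a j) (b j) = y j := by
    intro j
    obtain ⟨h', e⟩ := hval (a j) (b j) (hab j) (ha0 j) (ha4 j)
    rw [hψ j] at e
    have e1 := Point.some.inj e
    exact ⟨e1.1.symm, e1.2.symm⟩
  set R : ι → (cP (AlgebraicClosure K)).Point := fun j => Point.some (a j) (b j) (hab j) with hRdef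
  set G : AlgebraicClosure K := ∏ j, gP (a j) (b j) with hG
  have hρ : InKer (∑ j, R j) := by
    rw [← hker, map_sum, ← hsum]
    exact Finset.sum_congr rfl fun j _ => hψ j
  have hG4 : G ^ 4 = ∏ j, fE (x j) (y j) := by
    rw [hG, ← Finset.prod_pow]
    refine Finset.prod_congr rfl fun j _ => ?_
    have h1 : (b j) ^ 2 = (a j) ^ 3 - 24 * (a j) ^ 2 + 16 * a j := by
      have h2 := (equation_iff _ _).1 (hab j).1
      simp only [cP] at h2
      linear_combination h2
    have h2 := fE_psi h1 (ha0 j) (ha4 j) (by rw [(hps j).1]; exact hx j)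
    rw [(hps j).1, (hps j).2] at h2
    exact h2.symm
  have hfix : ∀ σ : AlgebraicClosure K ≃ₐ[K] AlgebraicClosure K,
      σ (G / eP (∑ j, R j)) = G / eP (∑ j, R j) := by
    intro σ
    obtain ⟨π, hπ⟩ := hσ σ
    obtain ⟨mP, hmP⟩ := map_aux (cP K) cP_base σ
    have hm : ∀ j, ψ (mP (R j)) = ψ (R (π j)) := by
      intro j
      obtain ⟨h', e⟩ := hmP (a j) (b j) (hab j)
      have h0 : σ (a j) ≠ 0 := fun h => ha0 j (by simpa using h)
      have h4 : σ (a j) ≠ 4 := by
        intro h
        apply ha4 j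
        apply σ.injective
        rw [h, map_ofNat]
      obtain ⟨h'', e'⟩ := hval (σ (a j)) (σ (b j)) h' h0 h4
      have e1 : mP (R j) = Point.some (σ (a j)) (σ (b j)) h' := e
      rw [e1, e']
      have e2 : ψ (R (π j)) = Point.some (x (π j)) (y (π j)) (hn (π j)) := hψ (π j)
      rw [e2, Point.some.injEq]
      have e3 : psX (σ (a j)) (σ (b j)) = σ (psX (a j) (b j)) := by
        simp only [psX, map_div₀, map_pow, map_mul, map_sub, map_ofNat]
      have e4 : psY (σ (a j)) (σ (b j)) = σ (psY (a j) (b j)) := by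
        simp only [psY, map_div₀, map_pow, map_mul, map_sub, map_neg, map_add, map_ofNat]
      rw [e3, e4, (hps j).1, (hps j).2]
      exact hπ j
    have hκ : ∀ j, InKer (mP (R j) - R (π j)) := by
      intro j
      rw [← hker, map_sub, hm j, sub_self]
    have hg : ∀ j, σ (gP (a j) (b j)) = eP (mP (R j) - R (π j)) * gP (a (π j)) (b (π j)) := by
      intro j
      obtain ⟨x', y', hn', e, -, -, e'⟩ := gP_add rfl (hab (π j)) (ha0 (π j)) (ha4 (π j)) (hκ j)
      have e0 : (Point.some (a (π j)) (b (π j)) (hab (π j)) : (cP (AlgebraicClosure K)).Point) =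
        R (π j) := rfl
      rw [e0, add_sub_cancel] at e
      obtain ⟨h', e1⟩ := hmP (a j) (b j) (hab j)
      have e2 : mP (R j) = Point.some (σ (a j)) (σ (b j)) h' := e1
      rw [e2] at e
      have e3 := Point.some.inj e
      rw [← e', ← e3.1, ← e3.2]
      simp only [gP, map_sub, map_div₀, map_mul, map_add, map_ofNat]
    obtain ⟨hS, hS'⟩ := ker_sum Finset.univ (fun j => mP (R j) - R (π j)) hκ
    have hσG : σ G = eP (∑ j, (mP (R j) - R (π j))) * G := by
      rw [hS', hG, map_prod, Finset.prod_congr rfl fun j _ => hg j, Finset.prod_mul_distrib]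
      congr 1
      exact Equiv.prod_comp π fun j => gP (a j) (b j)
    have hmρ : mP (∑ j, R j) = ∑ j, R j + ∑ j, (mP (R j) - R (π j)) := by
      rw [map_sum, Finset.sum_sub_distrib, Equiv.sum_comp π R, add_sub_cancel]
    have hσe : ∀ ρ : (cP (AlgebraicClosure K)).Point, σ (eP ρ) = eP (mP ρ) := by
      rintro (_ | ⟨a', b', h'⟩)
      · have e1 : mP (Point.zero) = Point.zero := map_zero mP
        rw [e1]
        exact map_one σ
      · obtain ⟨h'', e1⟩ := hmP a' b' h'
        rw [e1]
        by_cases h4 : a' = 4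
        · rw [eP_some h' h4, eP_some h'' (by rw [h4, map_ofNat]), map_div₀, map_neg, map_ofNat]
        · rw [eP_some' h' h4, eP_some' h'' (by
            intro h
            apply h4
            apply σ.injective
            rw [h, map_ofNat]), map_neg, map_one]
    have h1 : σ (eP (∑ j, R j)) = eP (∑ j, R j) * eP (∑ j, (mP (R j) - R (π j))) := by
      rw [hσe, hmρ]
      exact (inKer_add rfl hρ hS).2
    have h2 := (eP_ne rfl hS).1
    have h3 := (eP_ne rfl hρ).1
    rw [map_div₀, hσG, h1]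
    field_simp
  obtain ⟨z, hz⟩ := exists_of_fixed hfix
  refine ⟨z, ?_⟩
  rw [hz, div_pow, (eP_ne rfl hρ).2, div_one, hG4]

end Pool.Agent.Work.MP_8efaaa_nt.T
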