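import Mathlib
import Pool.Agent.Work.MP_8efaaa_nt.T.Defs
import Pool.Agent.Work.MP_8efaaa_nt.T.CDefs
import Pool.Agent.Work.MP_8efaaa_nt.T.SumZ

/-!
# T/WPt (M): the points on `cE` given by `W`, `W'`, and their sum

With `u = W c ^ 2`, `v = W' c`: `u ^ 2 + v ^ 4 = 1`, `u ≠ 0`, `v ≠ 0`, so `(1 + u) (1 - u) = v ^ 4 ≠ 0`. `xW = 2 (1 + u) / v ^ 2`,
`yW = 4 (1 + u) / v ^ 3`: `y ^ 2 = x ^ 3 + 4 x` because `(1 + u) ^ 2 + v ^ 4 = 2 (1 + u)`. The automorphism `σ` acts by
`c ↦ c0 * c` (`WCtx.act`). The sum `S = ∑ c, P c` is fixed by all automorphisms (`Point.map`, for `(cE K)⁄F` which is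
equal to `cE F`; or: prove by hand that a `σ`-fixed family has fixed sum), so `S = 0` or `S = (x, y)` with `x`, `y`
fixed, `exists_of_fixed`.
-/

set_option autoImplicit false

namespace Pool.Agent.Work.MP_8efaaa_nt.T

open WeierstrassCurve WeierstrassCurve.Affine IsDedekindDomain NumberField
open Pool.Agent.Work.MP_787500_nt.HC
open scoped nonZeroDivisors

universe u

/-- first coordinate of the point -/
def xW {A F : Type*} [Field F] (W W' : A → F) (c : A) : F := 2 * (1 + W c ^ 2) / W' c ^ 2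

/-- second coordinate of the point -/
def yW {A F : Type*} [Field F] (W W' : A → F) (c : A) : F := 4 * (1 + W c ^ 2) / W' c ^ 3

private theorem one_add_ne {A F : Type*} [Field F] [CharZero F] [CommGroup A] {p : A}
    {W W' : A → F} (h : WRel p W W') (c : A) : 1 + W c ^ 2 ≠ 0 := by
  intro h0
  have h1 := h.four c
  have h2 : W' c ^ 4 = (1 + W c ^ 2) * (1 - W c ^ 2) := by linear_combination h1
  rw [h0, zero_mul] at h2
  exact pow_ne_zero 4 (h.ne' c) h2

theorem nonsing_W {A F : Type*} [Field F] [CharZero F] [CommGroup A] {p : A} {W W' : A → F}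
    (h : WRel p W W') (c : A) : (cE F).Nonsingular (xW W W' c) (yW W W' c) := by
  rw [nonsingular_iff, equation_iff]
  have hv := h.ne' c
  have hu := one_add_ne h c
  have h1 := h.four c
  refine ⟨?_, Or.inr ?_⟩
  · show yW W W' c ^ 2 + 0 * xW W W' c * yW W W' c + 0 * yW W W' c =
      xW W W' c ^ 3 + 0 * xW W W' c ^ 2 + 4 * xW W W' c + 0
    unfold xW yW
    field_simp
    linear_combination (-8 * (1 + W c ^ 2) : F) * h1
  · show yW W W' c ≠ - yW W W' c - 0 * xW W W' c - 0
    intro h2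
    have h3 : 2 * yW W W' c = 0 := by linear_combination h2
    have h4 : yW W W' c ≠ 0 := by
      unfold yW
      exact div_ne_zero (mul_ne_zero (by norm_num) hu) (pow_ne_zero 3 hv)
    exact h4 ((mul_eq_zero.1 h3).resolve_left (by norm_num))

theorem xW_ne {A F : Type*} [Field F] [CharZero F] [CommGroup A] {p : A} {W W' : A → F}
    (h : WRel p W W') (c : A) : xW W W' c ≠ 0 := by
  unfold xW
  exact div_ne_zero (mul_ne_zero (by norm_num) (one_add_ne h c)) (pow_ne_zero 2 (h.ne' c))

private theorem some_congr {F : Type*} [Field F] {W : WeierstrassCurve.Affine F} {x y x' y' : F}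
    (hn : W.Nonsingular x y) (hn' : W.Nonsingular x' y') (hx : x = x') (hy : y = y') :
    (Point.some x y hn : W.Point) = Point.some x' y' hn' := by
  subst hx
  subst hy
  rfl

open scoped Classical in
private theorem sum_gen {K : Type u} {F : Type u} [Field K] [Field F] [Algebra K F]
    (W : WeierstrassCurve.Affine K) (W2 : WeierstrassCurve.Affine F)
    (hW : W2 = WeierstrassCurve.Affine.baseChange W F) {ι : Type*} [Fintype ι] (x y : ι → F)
    (hn : ∀ j, W2.Nonsingular (x j) (y j))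
    (hσ : ∀ σ : F ≃ₐ[K] F, ∃ π : Equiv.Perm ι, ∀ j, σ (x j) = x (π j) ∧ σ (y j) = y (π j)) :
    (∑ j, Point.some (x j) (y j) (hn j) = 0) ∨
      ∃ (x0 y0 : F) (hn0 : W2.Nonsingular x0 y0), (∀ σ : F ≃ₐ[K] F, σ x0 = x0 ∧ σ y0 = y0) ∧
        ∑ j, Point.some (x j) (y j) (hn j) = Point.some x0 y0 hn0 := by
  subst hW
  have key : ∀ σ : F ≃ₐ[K] F, Point.map (W' := W) (σ : F →ₐ[K] F)
      (∑ j, Point.some (x j) (y j) (hn j)) = ∑ j, Point.some (x j) (y j) (hn j) := by
    intro σ
    obtain ⟨π, hπ⟩ := hσ σ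
    rw [map_sum, ← Equiv.sum_comp π (fun j => Point.some (x j) (y j) (hn j))]
    refine Finset.sum_congr rfl fun j _ => ?_
    rw [Point.map_some]
    exact some_congr _ _ (hπ j).1 (hπ j).2
  rcases hS : (∑ j, Point.some (x j) (y j) (hn j)) with _ | ⟨x0, y0, hn0⟩
  · left
    rfl
  · right
    refine ⟨x0, y0, hn0, fun σ => ?_, rfl⟩
    have h1 := key σ
    rw [hS, Point.map_some] at h1
    injection h1 with h2 h3
    exact ⟨h2, h3⟩

open scoped Classical in
theorem sum_W {K : Type u} [Field K] [NumberField K] {v : HeightOneSpectrum (𝓞 K)}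
    {W W' : ClassGroup (𝓞 K) → AlgebraicClosure K} (h : WCtx K v W W') :
    (∑ c, Point.some (xW W W' c) (yW W W' c) (nonsing_W h.rel c) = 0) ∨
      ∃ (x y : K) (hn : (cE (AlgebraicClosure K)).Nonsingular
          (algebraMap K (AlgebraicClosure K) x) (algebraMap K (AlgebraicClosure K) y)),
        y ^ 2 = x ^ 3 + 4 * x ∧
        ∑ c, Point.some (xW W W' c) (yW W W' c) (nonsing_W h.rel c) = Point.some _ _ hn := by
  have hW : cE (AlgebraicClosure K) =
      WeierstrassCurve.Affine.baseChange (cE K) (AlgebraicClosure K) := by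
    unfold cE
    ext
    all_goals simp [WeierstrassCurve.Affine.baseChange, WeierstrassCurve.baseChange]
    exact (map_ofNat (algebraMap K (AlgebraicClosure K)) 4).symm
  have hσ : ∀ σ : AlgebraicClosure K ≃ₐ[K] AlgebraicClosure K,
      ∃ π : Equiv.Perm (ClassGroup (𝓞 K)), ∀ c, σ (xW W W' c) = xW W W' (π c) ∧
        σ (yW W W' c) = yW W W' (π c) := by
    intro σ
    obtain ⟨c0, hc⟩ := h.act σ
    refine ⟨Equiv.mulLeft c0, fun c => ?_⟩
    obtain ⟨h1, h2⟩ := hc c
    unfold xW yW
    rw [Equiv.coe_mulLeft]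
    simp only [map_div₀, map_mul, map_add, map_pow, map_one, map_ofNat, h1, h2]
    exact ⟨trivial, trivial⟩
  rcases sum_gen (cE K) (cE (AlgebraicClosure K)) hW (xW W W') (yW W W')
    (fun c => nonsing_W h.rel c) hσ with h1 | ⟨x0, y0, hn0, h1, h2⟩
  · left
    exact h1
  · right
    obtain ⟨x, rfl⟩ := exists_of_fixed fun σ => (h1 σ).1
    obtain ⟨y, rfl⟩ := exists_of_fixed fun σ => (h1 σ).2
    refine ⟨x, y, hn0, ?_, h2⟩
    have h3 := hn0.1
    rw [equation_iff] at h3
    apply (algebraMap K (AlgebraicClosure K)).injective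
    have h4 : algebraMap K (AlgebraicClosure K) y ^ 2 +
        0 * algebraMap K (AlgebraicClosure K) x * algebraMap K (AlgebraicClosure K) y +
        0 * algebraMap K (AlgebraicClosure K) y = algebraMap K (AlgebraicClosure K) x ^ 3 +
        0 * algebraMap K (AlgebraicClosure K) x ^ 2 + 4 * algebraMap K (AlgebraicClosure K) x + 0 :=
      h3
    simp only [map_pow, map_add, map_mul, map_ofNat]
    linear_combination h4

end Pool.Agent.Work.MP_8efaaa_nt.T
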