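import Mathlib
import Pool.Agent.Work.MP_8efaaa_nt.T.Defs
import Pool.Agent.Work.MP_8efaaa_nt.T.CDefs
import Pool.Agent.Work.MP_8efaaa_nt.T.WPt

/-!
# T/WProd (M): the product of the values of `fE`

Let `p = cl (pr v)⁻¹`, `r = orderOf p`, `n = (zpowers p).index`, `h = Nat.card (ClassGroup) = r n`.
* `fE (xW c) (yW c) = 8 (1 + W c ^ 2) (1 - W' c) ^ 2 / W' c ^ 4` (`field_simp`).
* `∏ c, (1 + W c ^ 2) = ± β ^ n`: for each `c`, `∏ k < r, (1 + W (p ^ k c) ^ 2) = ± β` (`WCtx.prod`, `sq_eq_sq_iff_eq_or_eq_neg`), and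
  the class group is the disjoint union of the `n` cosets `{p ^ k c : k < r}` (e.g. choose representatives
  `Quotient.out` of the quotient by `zpowers p`, `Subgroup.groupEquivQuotientProdSubgroup`, or
  `Finset.prod_fiberwise`).
* Let `V = ∏ c, W' c` (fixed by the automorphisms, so `V = algebraMap t`, `exists_of_fixed`). From `rec2`:
  `(1 - W' (p c)) ^ 2 = 2 W' (p c) (1 - W' c ^ 2) / W' c ^ 2`, `(1 + W' (p c)) ^ 2 = 2 W' (p c) (1 + W' c ^ 2) / W' c ^ 2`,
  `1 + W' (p c) ^ 2 = 2 W' (p c) / W' c ^ 2`. Taking the products over all `c` (`c ↦ p c` is a bijection), with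
  `N = ∏ (1 - W' c)`, `N' = ∏ (1 + W' c)`, `M = ∏ (1 + W' c ^ 2)`: `M = 2 ^ h / V`, `N' ^ 2 = 2 ^ h M / V = 2 ^ (2 h) / V ^ 2`,
  `N ^ 2 = 2 ^ h N N' / V`, so `N = 2 ^ h N' / V` (`N ≠ 0` because `W ≠ 0` and `four`), `N ^ 2 = (2 ^ h / V) ^ 4`.
* So the product of the `fE` is `8 ^ h (± β ^ n) (2 ^ h / V) ^ 4 / V ^ 4 = ± 8 ^ h β ^ n (2 ^ h / t ^ 2) ^ 4`.
-/

set_option autoImplicit false

namespace Pool.Agent.Work.MP_8efaaa_nt.T

open WeierstrassCurve WeierstrassCurve.Affine IsDedekindDomain NumberField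
open Pool.Agent.Work.MP_787500_nt.HC
open scoped nonZeroDivisors

universe u

private theorem prod_coset {A F : Type*} [CommGroup A] [Fintype A] [CommMonoid F] (p : A)
    [Fintype (A ⧸ Subgroup.zpowers p)] (f : A → F) :
    ∏ c, f c = ∏ q : A ⧸ Subgroup.zpowers p,
      ∏ k ∈ Finset.range (orderOf p), f (p ^ k * q.out) := by
  classical
  rw [← Finset.prod_fiberwise Finset.univ (fun c : A => (QuotientGroup.mk c : A ⧸ Subgroup.zpowers p)) f]
  refine Finset.prod_congr rfl fun q _ => ?_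
  symm
  refine Finset.prod_bij (fun k _ => p ^ k * q.out) ?_ ?_ ?_ ?_
  · intro k _
    rw [Finset.mem_filter]
    refine ⟨Finset.mem_univ _, ?_⟩
    have h1 : (QuotientGroup.mk (q.out * p ^ k) : A ⧸ Subgroup.zpowers p) = QuotientGroup.mk q.out :=
      QuotientGroup.mk_mul_of_mem _ (Subgroup.npow_mem_zpowers p k)
    rw [mul_comm, h1]
    exact QuotientGroup.out_eq' q
  · intro k hk l hl h
    have h1 : p ^ k = p ^ l := mul_right_cancel h
    exact pow_injOn_Iio_orderOf (Finset.mem_range.1 hk) (Finset.mem_range.1 hl) h1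
  · intro c hc
    rw [Finset.mem_filter] at hc
    have h1 : (QuotientGroup.mk q.out : A ⧸ Subgroup.zpowers p) = QuotientGroup.mk c := by
      rw [hc.2]
      exact QuotientGroup.out_eq' q
    rw [QuotientGroup.eq] at h1
    have h2 := mem_zpowers_iff_mem_range_orderOf.1 h1
    rw [Finset.mem_image] at h2
    obtain ⟨k, hk, hk2⟩ := h2
    refine ⟨k, hk, ?_⟩
    rw [hk2, mul_comm, mul_inv_cancel_left]
  · intro k _
    rfl

private theorem prod_sign {ι F : Type*} [Field F] (s : Finset ι) (z : ι → F) (b : F)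
    (h : ∀ j, z j = b ∨ z j = -b) : ∏ j ∈ s, z j = b ^ s.card ∨ ∏ j ∈ s, z j = -b ^ s.card := by
  classical
  induction s using Finset.induction_on with
  | empty => simp
  | insert j s hj ih =>
    rw [Finset.prod_insert hj, Finset.card_insert_of_notMem hj, pow_succ]
    rcases h j with h1 | h1 <;> rcases ih with h2 | h2 <;> rw [h1, h2]
    · left; ring
    · right; ring
    · right; ring
    · left; ring

private theorem fE_W {A F : Type*} [Field F] [CharZero F] [CommGroup A] {p : A} {W W' : A → F}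
    (h : WRel p W W') (c : A) : fE (xW W W' c) (yW W W' c) =
      8 * (1 + W c ^ 2) * (1 - W' c) ^ 2 / W' c ^ 4 := by
  have h1 := h.ne' c
  have h2 : 1 + W c ^ 2 ≠ 0 := by
    intro h0
    have h3 := h.rec1 c
    rw [h0, mul_zero] at h3
    have h4 := h.ne c
    rcases mul_eq_zero.1 h3.symm with h5 | h5
    · norm_num at h5
    · exact h4 h5
  simp only [fE, xW, yW]
  field_simp
  ring

private theorem prod_N {A F : Type*} [Field F] [CharZero F] [CommGroup A] [Fintype A] {p : A}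
    {W W' : A → F} (h : WRel p W W') :
    (∏ c, (1 - W' c)) ^ 2 = (2 ^ Fintype.card A / ∏ c, W' c) ^ 4 := by
  set V := ∏ c, W' c with hV
  set N := ∏ c, (1 - W' c) with hN
  set N' := ∏ c, (1 + W' c) with hN'
  set M := ∏ c, (1 + W' c ^ 2) with hM
  have hV0 : V ≠ 0 := Finset.prod_ne_zero_iff.2 fun c _ => h.ne' c
  have hN0 : N ≠ 0 := by
    refine Finset.prod_ne_zero_iff.2 fun c _ h0 => ?_
    have h1 : W' c = 1 := (sub_eq_zero.1 h0).symm
    have h2 := h.four c
    rw [h1, one_pow] at h2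
    have h3 : W c ^ 4 = 0 := by linear_combination h2
    exact h.ne c (pow_eq_zero_iff (by norm_num) |>.1 h3)
  have hsh : ∀ f : A → F, ∏ c, f (p * c) = ∏ c, f c := fun f => Equiv.prod_comp (Equiv.mulLeft p) f
  have hcard : ∏ _c : A, (2 : F) = 2 ^ Fintype.card A := by simp
  have e1 : M * V = 2 ^ Fintype.card A := by
    have e : V ^ 2 * M = 2 ^ Fintype.card A * V := by
      rw [hM, ← hsh (fun c => 1 + W' c ^ 2), hV, ← Finset.prod_pow, ← Finset.prod_mul_distrib,
        ← hcard]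
      rw [← hsh (fun c => W' c), ← Finset.prod_mul_distrib]
      exact Finset.prod_congr rfl fun c _ => h.rec2 c
    have e' : V * (M * V) = V * 2 ^ Fintype.card A := by linear_combination e
    exact mul_left_cancel₀ hV0 e'
  have e2 : V * N' ^ 2 = 2 ^ Fintype.card A * M := by
    have e : V ^ 2 * N' ^ 2 = 2 ^ Fintype.card A * V * M := by
      rw [hN', ← hsh (fun c => 1 + W' c), hV, hM, ← Finset.prod_pow, ← Finset.prod_pow,
        ← Finset.prod_mul_distrib, ← hcard]
      rw [← hsh (fun c => W' c), ← Finset.prod_mul_distrib, ← Finset.prod_mul_distrib]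
      refine Finset.prod_congr rfl fun c _ => ?_
      have h2 := h.rec2 c
      linear_combination h2
    have e' : V * (V * N' ^ 2) = V * (2 ^ Fintype.card A * M) := by linear_combination e
    exact mul_left_cancel₀ hV0 e'
  have e3 : V * N = 2 ^ Fintype.card A * N' := by
    have e : V ^ 2 * N ^ 2 = 2 ^ Fintype.card A * V * (N * N') := by
      rw [hN', hN, ← Finset.prod_mul_distrib]
      rw [← hsh (fun c => 1 - W' c), hV, ← Finset.prod_pow, ← Finset.prod_pow,
        ← Finset.prod_mul_distrib, ← hcard]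
      rw [← hsh (fun c => W' c), ← Finset.prod_mul_distrib, ← Finset.prod_mul_distrib]
      refine Finset.prod_congr rfl fun c _ => ?_
      have h2 := h.rec2 c
      linear_combination h2
    have e' : (V * N) * (V * N) = (V * N) * (2 ^ Fintype.card A * N') := by linear_combination e
    exact mul_left_cancel₀ (mul_ne_zero hV0 hN0) e'
  have e4 : V ^ 4 * N ^ 2 = (2 ^ Fintype.card A) ^ 4 := by
    have : V ^ 4 * N ^ 2 = V ^ 2 * (V * N) ^ 2 := by ring
    rw [this, e3]
    have : V ^ 2 * (2 ^ Fintype.card A * N') ^ 2 =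
      (2 ^ Fintype.card A) ^ 2 * V * (V * N' ^ 2) := by ring
    rw [this, e2]
    have : (2 ^ Fintype.card A) ^ 2 * V * (2 ^ Fintype.card A * M) =
      (2 ^ Fintype.card A) ^ 3 * (M * V) := by ring
    rw [this, e1]
    ring
  rw [div_pow, eq_div_iff (pow_ne_zero 4 hV0), ← e4]
  ring

theorem prod_W {K : Type u} [Field K] [NumberField K] {v : HeightOneSpectrum (𝓞 K)}
    {W W' : ClassGroup (𝓞 K) → AlgebraicClosure K} (h : WCtx K v W W') {β : Kˣ}
    (hβ : prin β = pr v ^ orderOf (cl (pr v)⁻¹)) :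
    ∃ k : K, k ≠ 0 ∧ ∃ e : K, (e = 1 ∨ e = -1) ∧
      ∏ c, fE (xW W W' c) (yW W W' c) = algebraMap K (AlgebraicClosure K)
        (e * 8 ^ Nat.card (ClassGroup (𝓞 K)) *
          (β : K) ^ (Subgroup.zpowers (cl (pr v)⁻¹)).index * k ^ 4) := by
  classical
  set p := cl (pr v)⁻¹ with hp
  have hrel := h.rel
  have hcard : Nat.card (ClassGroup (𝓞 K)) = Fintype.card (ClassGroup (𝓞 K)) :=
    Nat.card_eq_fintype_card
  -- the product of the `W'`
  obtain ⟨t, ht⟩ := exists_of_fixed (K := K) (z := ∏ c, W' c) (by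
    intro σ
    obtain ⟨c0, hc0⟩ := h.act σ
    rw [map_prod, Finset.prod_congr rfl fun c _ => (hc0 c).2]
    exact Equiv.prod_comp (Equiv.mulLeft c0) W')
  have hV0 : ∏ c, W' c ≠ 0 := Finset.prod_ne_zero_iff.2 fun c _ => hrel.ne' c
  have ht0 : t ≠ 0 := by
    rintro rfl
    rw [map_zero] at ht
    exact hV0 ht.symm
  -- the product of the `1 + W ^ 2`
  have hq : ∀ c, ∏ k ∈ Finset.range (orderOf p), (1 + W (p ^ k * c) ^ 2) =
        algebraMap K (AlgebraicClosure K) (β : K) ∨
      ∏ k ∈ Finset.range (orderOf p), (1 + W (p ^ k * c) ^ 2) =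
        -algebraMap K (AlgebraicClosure K) (β : K) := by
    intro c
    exact sq_eq_sq_iff_eq_or_eq_neg.1 (h.prod (orderOf p) β hβ c).symm
  have hidx : (Subgroup.zpowers p).index =
      (Finset.univ : Finset (ClassGroup (𝓞 K) ⧸ Subgroup.zpowers p)).card := by
    rw [Subgroup.index, Nat.card_eq_fintype_card, Finset.card_univ]
  have hP : ∏ c, (1 + W c ^ 2) =
        algebraMap K (AlgebraicClosure K) (β : K) ^ (Subgroup.zpowers p).index ∨
      ∏ c, (1 + W c ^ 2) =
        -algebraMap K (AlgebraicClosure K) (β : K) ^ (Subgroup.zpowers p).index := by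
    rw [prod_coset p (fun c => 1 + W c ^ 2), hidx]
    exact prod_sign Finset.univ _ _ fun q => hq q.out
  have hmain : ∏ c, fE (xW W W' c) (yW W W' c) =
      8 ^ Nat.card (ClassGroup (𝓞 K)) * (∏ c, (1 + W c ^ 2)) *
        (2 ^ Nat.card (ClassGroup (𝓞 K)) / (∏ c, W' c) ^ 2) ^ 4 := by
    rw [Finset.prod_congr rfl fun c _ => fE_W hrel c, Finset.prod_div_distrib,
      Finset.prod_mul_distrib, Finset.prod_mul_distrib, Finset.prod_pow, Finset.prod_pow,
      prod_N hrel, hcard, Finset.prod_const, Finset.card_univ]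
    field_simp
  have hk : algebraMap K (AlgebraicClosure K) (2 ^ Nat.card (ClassGroup (𝓞 K)) / t ^ 2) =
      2 ^ Nat.card (ClassGroup (𝓞 K)) / (∏ c, W' c) ^ 2 := by
    rw [map_div₀, map_pow, map_pow, map_ofNat, ht]
  refine ⟨2 ^ Nat.card (ClassGroup (𝓞 K)) / t ^ 2, div_ne_zero (pow_ne_zero _ two_ne_zero) (pow_ne_zero 2 ht0),
    ?_⟩
  rcases hP with h1 | h1
  · refine ⟨1, Or.inl rfl, ?_⟩
    rw [hmain, h1, map_mul, map_mul, map_mul, map_pow, map_pow, map_pow, hk, map_one, map_ofNat,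
      one_mul]
  · refine ⟨-1, Or.inr rfl, ?_⟩
    rw [hmain, h1, map_mul, map_mul, map_mul, map_pow, map_pow, map_pow, hk, map_neg, map_one,
      map_ofNat]
    ring

end Pool.Agent.Work.MP_8efaaa_nt.T
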