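import Mathlib
import Pool.Agent.Work.MP_8efaaa_nt.Defs
import Pool.Agent.Work.MP_8efaaa_nt.T.Ctx
import Pool.Agent.Work.MP_8efaaa_nt.T.SumZ
import Pool.Agent.Work.MP_8efaaa_nt.T.WPt
import Pool.Agent.Work.MP_8efaaa_nt.T.WProd
import Pool.Agent.Work.MP_8efaaa_nt.T.Val
import Pool.Agent.Work.MP_8efaaa_nt.T.EK

/-!
# T/Fin: the congruent numbers `7 (mod 8)`
-/

set_option autoImplicit false

namespace Pool.Agent.Work.MP_8efaaa_nt.T

open WeierstrassCurve WeierstrassCurve.Affine IsDedekindDomain NumberField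
open Pool.Agent.Work.MP_787500_nt Pool.Agent.Work.MP_787500_nt.HC
open scoped nonZeroDivisors

universe u

section torsion

variable {F : Type*} [Field F] [CharZero F]

private theorem ns_Q : (cE F).Nonsingular 2 (-4) := by
  rw [nonsingular_iff', equation_iff]
  simp only [cE]
  refine ⟨by ring, Or.inr ?_⟩
  norm_num

private theorem ns_Q' : (cE F).Nonsingular 2 4 := by
  rw [nonsingular_iff', equation_iff]
  simp only [cE]
  refine ⟨by ring, Or.inr ?_⟩
  norm_num

private theorem ns_T : (cE F).Nonsingular 0 0 := by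
  rw [nonsingular_iff', equation_iff]
  simp only [cE]
  refine ⟨by ring, Or.inl ?_⟩
  norm_num

open scoped Classical in
private theorem Q_add_Q : (Point.some 2 (-4) ns_Q : (cE F).Point) + Point.some 2 (-4) ns_Q =
    Point.some 0 0 ns_T := by
  have hy : (-4 : F) ≠ (cE F).negY 2 (-4) := by
    simp only [negY, cE]
    norm_num
  have hs : (cE F).slope 2 2 (-4) (-4) = -2 := by
    rw [slope_of_Y_ne rfl hy]
    simp only [negY, cE]
    norm_num
  rw [Point.add_self_of_Y_ne hy]
  simp only [Point.some.injEq]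
  rw [hs]
  constructor
  · simp only [addX, cE]
    norm_num
  · simp only [addY, negAddY, negY, addX, cE]
    norm_num

open scoped Classical in
private theorem T_add_T : (Point.some 0 0 ns_T : (cE F).Point) + Point.some 0 0 ns_T = 0 := by
  rw [Point.add_of_Y_eq rfl]
  simp only [negY, cE]
  norm_num

open scoped Classical in
private theorem Q_add_Q' : (Point.some 2 4 ns_Q' : (cE F).Point) + Point.some 2 (-4) ns_Q = 0 := by
  rw [Point.add_of_Y_eq rfl]
  simp only [negY, cE]
  norm_num

end torsion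

theorem main {K : Type u} [Field K] [NumberField K] {a : ℕ} {s : K} (hb : Base K a s)
    {v : HeightOneSpectrum (𝓞 K)} (hv : (2 : 𝓞 K) ∈ v.asIdeal)
    (hind : ¬ 4 ∣ (Subgroup.zpowers (cl (pr v)⁻¹)).index) : IsCongruent a := by
  classical
  by_contra hnc
  obtain ⟨W, W', hW⟩ := exists_wctx hb hv
  obtain ⟨β, hβ⟩ : ∃ β : Kˣ, prin β = pr v ^ orderOf (cl (pr v)⁻¹) := by
    have h1 : cl (1 : Idl K) = cl (pr v ^ orderOf (cl (pr v)⁻¹)) := by
      rw [cl_pow, cl_one]
      have h2 := pow_orderOf_eq_one (cl (pr v)⁻¹)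
      rw [cl_inv, inv_pow, orderOf_inv, inv_eq_one] at h2
      rw [cl_inv, orderOf_inv, h2]
    obtain ⟨x, hx⟩ := cl_eq_iff.1 h1
    exact ⟨x, by rw [hx, mul_one]⟩
  obtain ⟨k, hk, e, he, hprod⟩ := prod_W hW hβ
  set S : (cE (AlgebraicClosure K)).Point := ∑ c, Point.some (xW W W' c) (yW W W' c) (nonsing_W hW.rel c) with hS
  -- the sum is one of the four points
  have key : ∃ j : ℕ, j < 4 ∧ S + ∑ _i : Fin j, Point.some 2 (-4) (ns_Q (F := AlgebraicClosure K)) = 0 := by
    rcases sum_W hW with h | ⟨x, y, hn, hxy, h⟩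
    · exact ⟨0, by norm_num, by rw [hS, h]; simp⟩
    · rcases points_K hb hnc hxy with ⟨rfl, rfl⟩ | ⟨rfl, rfl | rfl⟩
      · refine ⟨2, by norm_num, ?_⟩
        rw [hS, h, Fin.sum_univ_two, Q_add_Q]
        simp only [map_zero]
        exact T_add_T
      · refine ⟨1, by norm_num, ?_⟩
        rw [hS, h, Fin.sum_univ_one]
        simp only [map_ofNat]
        exact Q_add_Q'
      · refine ⟨3, by norm_num, ?_⟩
        rw [hS, h, Fin.sum_univ_three, ← add_assoc, ← add_assoc]
        simp only [map_ofNat, map_neg]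
        rw [Q_add_Q, add_assoc, Q_add_Q]
        exact T_add_T
  obtain ⟨j, hj, hsum⟩ := key
  let x : ClassGroup (𝓞 K) ⊕ Fin j → (AlgebraicClosure K) := Sum.elim (xW W W') (fun _ => 2)
  let y : ClassGroup (𝓞 K) ⊕ Fin j → (AlgebraicClosure K) := Sum.elim (yW W W') (fun _ => -4)
  have hn : ∀ i, (cE (AlgebraicClosure K)).Nonsingular (x i) (y i) := by
    rintro (c | i)
    · exact nonsing_W hW.rel c
    · exact ns_Q
  have hx : ∀ i, x i ≠ 0 := by
    rintro (c | i)
    · exact xW_ne hW.rel c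
    · exact two_ne_zero
  obtain ⟨z, hz⟩ := sum_zero (K := K) hn hx (fun σ => by
    obtain ⟨c, hc⟩ := hW.act σ
    refine ⟨Equiv.sumCongr (Equiv.mulLeft c) (Equiv.refl _), ?_⟩
    rintro (d | i)
    · have h1 := hc d
      constructor
      · show σ (xW W W' d) = xW W W' (c * d)
        unfold xW
        rw [map_div₀, map_mul, map_add, map_one, map_pow, map_pow, map_ofNat, h1.1, h1.2]
      · show σ (yW W W' d) = yW W W' (c * d)
        unfold yW
        rw [map_div₀, map_mul, map_add, map_one, map_pow, map_pow, map_ofNat, h1.1, h1.2]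
    · constructor
      · show σ 2 = 2
        exact map_ofNat σ 2
      · show σ (-4) = -4
        rw [map_neg, map_ofNat]) (by
    rw [Fintype.sum_sum_type]
    exact hsum)
  have hz' : algebraMap K (AlgebraicClosure K) (z ^ 4) = algebraMap K (AlgebraicClosure K) (e * 8 ^ Nat.card (ClassGroup (𝓞 K)) *
      (β : K) ^ (Subgroup.zpowers (cl (pr v)⁻¹)).index * k ^ 4 * 32 ^ j) := by
    rw [map_pow, hz, Fintype.prod_sum_type, map_mul _ _ ((32 : K) ^ j), ← hprod]
    congr 1
    show ∏ _i : Fin j, fE (2 : (AlgebraicClosure K)) (-4) = _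
    rw [Finset.prod_const, Finset.card_univ, Fintype.card_fin, map_pow, map_ofNat]
    congr 1
    unfold fE
    norm_num
  exact hind (four_dvd_index hb hv hβ hk he hj ((algebraMap K (AlgebraicClosure K)).injective hz'))

end Pool.Agent.Work.MP_8efaaa_nt.T
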